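import Pool.Agent.Lib.MP_b03ab8_lc.ADefs

/-!
# Basic facts for part A (proved)
-/

open Finset

namespace Pool.Agent.LinSched

variable {T ι : Type}

/-! ## Walks -/

section
variable {V : Type} {s d : ι → V}

theorem Walk.append {u v w : V} {l l' : List ι} (h : Walk s d u l v) (h' : Walk s d v l' w) :
    Walk s d u (l ++ l') w := by
  induction h with
  | nil v => simpa using h'
  | cons e _ ih => exact Walk.cons e (ih h')

theorem Walk.nil_inv {u v : V} (h : Walk s d u [] v) : u = v := by cases h; rfl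

theorem Walk.cons_inv {u v : V} {e : ι} {l : List ι} (h : Walk s d u (e :: l) v) :
    s e = u ∧ Walk s d (d e) l v := by cases h with | cons _ h => exact ⟨rfl, h⟩

theorem Walk.single (e : ι) : Walk s d (s e) [e] (d e) := Walk.cons e (Walk.nil _)

theorem Walk.append_inv {u w : V} {l l' : List ι} (h : Walk s d u (l ++ l') w) :
    ∃ v, Walk s d u l v ∧ Walk s d v l' w := by
  induction l generalizing u with
  | nil => exact ⟨u, Walk.nil u, by simpa using h⟩
  | cons e l ih =>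
    rw [List.cons_append] at h
    obtain ⟨rfl, h'⟩ := Walk.cons_inv h
    obtain ⟨v, h1, h2⟩ := ih h'
    exact ⟨v, Walk.cons e h1, h2⟩

/-- Splitting a walk at the source of one of its edges. -/
theorem Walk.split {u w : V} {l : List ι} (h : Walk s d u l w) {x : V}
    (hx : x ∈ l.map s) : ∃ l1 l2, l = l1 ++ l2 ∧ l2 ≠ [] ∧ Walk s d u l1 x ∧
      Walk s d x l2 w := by
  obtain ⟨e, he, rfl⟩ := List.mem_map.1 hx
  obtain ⟨l1, l2, rfl⟩ := List.append_of_mem he
  obtain ⟨v, h1, h2⟩ := h.append_inv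
  obtain ⟨rfl, h3⟩ := h2.cons_inv
  exact ⟨l1, e :: l2, rfl, by simp, h1, Walk.cons e h3⟩

theorem nodup_length_le [Fintype V] {l : List ι} (h : (l.map s).Nodup) :
    l.length ≤ Fintype.card V := by
  have := h.length_le_card
  simpa using this

end

/-! ## The earliest schedule -/

section
variable {G : NGraph T ι} {τ : T → ℕ → ℕ}

theorem tau_succ (hG : G.Ok) (hτ : G.IsTau τ) (j : T) (n : ℕ) (hn : 1 ≤ n) :
    τ j n + G.p j ≤ τ j (n + 1) := by
  obtain ⟨e, rfl, h2, h3, h4, h5, h6⟩ := hG.loop j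
  have := hτ.le e (n - 1)
  rw [h2, h3, h4, h5, h6] at this
  rw [show 1 + 1 * (n - 1) = n by omega, show 2 + 1 * (n - 1) = n + 1 by omega] at this
  exact this

theorem tau_mono (hG : G.Ok) (hτ : G.IsTau τ) (j : T) {m n : ℕ} (hm : 1 ≤ m) (h : m ≤ n) :
    τ j m ≤ τ j n := by
  induction n, h using Nat.le_induction with
  | base => exact le_rfl
  | succ n hmn ih => exact ih.trans (by have := tau_succ hG hτ j n (by omega); omega)

theorem tau_ge (hG : G.Ok) (hτ : G.IsTau τ) (j : T) {n : ℕ} (hn : 1 ≤ n) :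
    n ≤ τ j n + 1 := by
  induction n, hn using Nat.le_induction with
  | base => omega
  | succ n hmn ih => have := tau_succ hG hτ j n (by omega); have := hG.p_pos j; omega

theorem tau_lt (hG : G.Ok) (hτ : G.IsTau τ) (j : T) {m n : ℕ} (hm : 1 ≤ m) (h : m < n) :
    τ j m + G.p j ≤ τ j n :=
  (tau_succ hG hτ j m hm).trans (tau_mono hG hτ j (by omega) h)

end

/-! ## Bounds -/

section
variable [Fintype T] [Fintype ι] {G : NGraph T ι} {R : ℕ} {v : T → ℕ}

omit [Fintype T] in
theorem Y_pos (hG : G.Ok) : 0 < G.Y :=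
  Nat.mul_pos (Finset.prod_pos fun e _ => hG.a_pos e)
    (pow_pos (Finset.prod_pos fun e _ => hG.a'_pos e) 2)

theorem Y_le (hR : G.Bnd R) : G.Y ≤ R ^ 3 := by
  calc G.Y ≤ R * R ^ 2 := Nat.mul_le_mul hR.prod_a (Nat.pow_le_pow_left hR.prod_a' 2)
    _ = R ^ 3 := by ring

omit [Fintype T] in
theorem v_dvd_Y (hv : G.IsPot R v) (i : T) : v i ∣ G.Y :=
  (hv.dvd i).trans ⟨∏ e, G.a' e, by unfold NGraph.Y; ring⟩

omit [Fintype T] in
theorem va_dvd_Y (hv : G.IsPot R v) (i : T) (e : ι) : v i * G.a' e ∣ G.Y := by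
  have h1 : G.a' e ∣ ∏ e, G.a' e := Finset.dvd_prod_of_mem _ (Finset.mem_univ e)
  have := Nat.mul_dvd_mul (hv.dvd i) h1
  exact this.trans ⟨1, by unfold NGraph.Y; ring⟩

theorem vm_le (hR : G.Bnd R) (hv : G.IsPot R v) (e : ι) : v (G.s e) * G.m e ≤ R ^ 5 :=
  (Nat.mul_le_mul (hv.bd _) (hR.m_le e)).trans (by rw [← pow_add])

theorem vn_le (hR : G.Bnd R) (hv : G.IsPot R v) (e : ι) : v (G.d e) * G.n e ≤ R ^ 5 :=
  (Nat.mul_le_mul (hv.bd _) (hR.n_le e)).trans (by rw [← pow_add])

theorem D_le (hR : G.Bnd R) (hv : G.IsPot R v) (e : ι) : G.D v e ≤ (R : ℤ) ^ 5 := by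
  have := vn_le hR hv e
  have h : ((v (G.d e) * G.n e : ℕ) : ℤ) ≤ ((R ^ 5 : ℕ) : ℤ) := by exact_mod_cast this
  push_cast at h
  unfold NGraph.D
  have : (0 : ℤ) ≤ (v (G.s e) : ℤ) * G.m e := by positivity
  linarith

theorem D_ge (hR : G.Bnd R) (hv : G.IsPot R v) (e : ι) : -(R : ℤ) ^ 5 ≤ G.D v e := by
  have := vm_le hR hv e
  have h : ((v (G.s e) * G.m e : ℕ) : ℤ) ≤ ((R ^ 5 : ℕ) : ℤ) := by exact_mod_cast this
  push_cast at h
  unfold NGraph.D
  have : (0 : ℤ) ≤ (v (G.d e) : ℤ) * G.n e := by positivity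
  linarith

omit [Fintype T] in
theorem finite_VE (hG : G.Ok) (v : T → ℕ) : Finite (G.VE v) := by
  have : NeZero G.Y := ⟨(Y_pos hG).ne'⟩
  unfold NGraph.VE
  infer_instance

theorem card_level (hG : G.Ok) (hR : G.Bnd R) :
    ∃ _ : Fintype (T × ZMod G.Y), Fintype.card (T × ZMod G.Y) ≤ R ^ 4 := by
  have : NeZero G.Y := ⟨(Y_pos hG).ne'⟩
  refine ⟨inferInstance, ?_⟩
  rw [Fintype.card_prod, ZMod.card]
  calc Fintype.card T * G.Y ≤ R * R ^ 3 := Nat.mul_le_mul hR.cardT (Y_le hR)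
    _ = R ^ 4 := by ring

/-- A simple walk of the level graph has at most `R ^ 4` edges. -/
theorem simple_length (hG : G.Ok) (hR : G.Bnd R) {l : List (G.VE v)}
    (h : (l.map (G.vs v)).Nodup) : l.length ≤ R ^ 4 := by
  obtain ⟨_, h1⟩ := card_level hG hR
  exact (nodup_length_le h).trans h1

theorem sum_vD_le (hR : G.Bnd R) (hv : G.IsPot R v) (l : List (G.VE v)) :
    (l.map (G.vD v)).sum ≤ l.length * (R : ℤ) ^ 5 := by
  induction l with
  | nil => simp
  | cons q l ih =>
    have := D_le hR hv q.1.1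
    simp only [List.map_cons, List.sum_cons, List.length_cons, Nat.cast_add, Nat.cast_one]
    have h2 : G.vD v q = G.D v q.1.1 := rfl
    rw [h2]; linarith

theorem sum_vD_ge (hR : G.Bnd R) (hv : G.IsPot R v) (l : List (G.VE v)) :
    -(l.length * (R : ℤ) ^ 5) ≤ (l.map (G.vD v)).sum := by
  induction l with
  | nil => simp
  | cons q l ih =>
    have := D_ge hR hv q.1.1
    simp only [List.map_cons, List.sum_cons, List.length_cons, Nat.cast_add, Nat.cast_one]
    have h2 : G.vD v q = G.D v q.1.1 := rfl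
    rw [h2]; linarith

theorem sum_vp_le (hR : G.Bnd R) (l : List (G.VE v)) :
    (l.map (G.vp v)).sum ≤ l.length * R := by
  induction l with
  | nil => simp
  | cons q l ih =>
    have := hR.p_le (G.s q.1.1)
    simp only [List.map_cons, List.sum_cons, List.length_cons]
    have h2 : G.vp v q = G.p (G.s q.1.1) := rfl
    rw [h2]; linarith

omit [Fintype T] in
theorem sum_vp_ge (hG : G.Ok) (l : List (G.VE v)) :
    l.length ≤ (l.map (G.vp v)).sum := by
  induction l with
  | nil => simp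
  | cons q l ih =>
    have := hG.p_pos (G.s q.1.1)
    simp only [List.map_cons, List.sum_cons, List.length_cons]
    have h2 : G.vp v q = G.p (G.s q.1.1) := rfl
    rw [h2]; linarith

end

end Pool.Agent.LinSched
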