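import Pool.Agent.Lib.MP_b03ab8_lc.A.Pot

/-!
# Module A.Circ: circuits have weight at least one; the index potentials

PROOF of `circuit_weight` (Munier). Suppose `∏ a < ∏ a'` along the closed walk `l` from `i`
to `i`.

Claim: for a walk `l` from `i` to `j` there is a real `C ≥ 0` such that for every `m ≥ 1`
there is `m' ≥ 1` with `(m' : ℝ) ≤ (∏ a / ∏ a') m + C` and `τ i m + l.length ≤ τ j m'`.
Induction on the walk. Empty: `m' = m`. Edge `e` first: take `t` minimal with
`m ≤ G.m e + G.a' e * t`; if `t ≥ 1` then `G.m e + G.a' e * (t - 1) < m`, so in any case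
`a' t ≤ m + a'` (`t = 0` is trivial), and with `m1 = G.n e + G.a e * t ≥ 1` we get
`m1 ≤ G.n e + a (m + a') / a' = (a / a') m + G.n e + a`, while
`τ i m ≤ τ i (G.m e + G.a' e * t)` (`tau_mono`) and this `+ p ≤ τ (d e) m1` (`IsTau.le`),
`p ≥ 1`. Apply the induction hypothesis to `m1`: constants `W' (n_e + a) + C'`.

Let `q = ∏ a / ∏ a' < 1` and `C` as in the claim for `l`, and `B` a natural number with
`B ≥ C / (1 - q)`, `B ≥ 1`: then `m ≤ B` implies `q m + C ≤ B`. Choose `m ∈ {1, ..., B}` with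
`τ i m` maximal; then `m' ∈ {1, ..., B}` and `τ i m + l.length ≤ τ i m' ≤ τ i m`, so `l = []`,
and then `∏ a = ∏ a' = 1`, a contradiction.

PROOF of `exists_v`. `pot_mul` on the graph `(T, ι, s, d)` with weights `w e = a' e / a e`,
initial values `1`; closed walks have product `≤ 1` by `circuit_weight` (the product of the
quotients is the quotient of the products). We get `c > 0`, `c (s e) a' e ≤ c (d e) a e`, and
for every `j` a simple walk `l` ending in `j` with `c j = (∏_l a') / (∏_l a)`. The edges of `l`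
are distinct (their sources are), so with `L = l.toFinset`,
`c j * ∏ a = (∏_{e ∈ L} a' e) * (∏_{e ∉ L} a e)`: a natural number `v j > 0`, at most
`(∏ a') (∏ a) ≤ R ^ 2`, and it divides `(∏ a) (∏ a')` as `∏_{L} a' ∣ ∏ a'`,
`∏_{e ∉ L} a ∣ ∏ a`. The inequality `v (s e) a' e ≤ v (d e) a e` is the one for `c`
multiplied by `∏ a`.
-/

open Finset

namespace Pool.Agent.LinSched

variable {T ι : Type} [Fintype T] [Fintype ι] {G : NGraph T ι} {τ : T → ℕ → ℕ} {R : ℕ}

omit [Fintype ι] in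
private theorem circ_pos (f : ι → ℕ) (hf : ∀ e, 0 < f e) (l : List ι) : 0 < (l.map f).prod :=
  List.prod_pos fun x hx => by
    obtain ⟨e, _, rfl⟩ := List.mem_map.1 hx
    exact hf e

omit [Fintype T] [Fintype ι] in
private theorem circ_claim (hG : G.Ok) (hτ : G.IsTau τ) {i j : T} {l : List ι}
    (hw : Walk G.s G.d i l j) :
    ∃ C : ℝ, 0 ≤ C ∧ ∀ m : ℕ, 1 ≤ m → ∃ m' : ℕ, 1 ≤ m' ∧
      (m' : ℝ) ≤ (((l.map G.a).prod : ℕ) : ℝ) / (((l.map G.a').prod : ℕ) : ℝ) * m + C ∧
      τ i m + l.length ≤ τ j m' := by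
  induction hw with
  | nil v =>
    refine ⟨0, le_rfl, fun m hm => ⟨m, hm, ?_, ?_⟩⟩
    · simp
    · simp
  | @cons e l v h ih =>
    obtain ⟨C', hC', ih⟩ := ih
    have ha : (0 : ℝ) < G.a e := by exact_mod_cast hG.a_pos e
    have ha' : (0 : ℝ) < G.a' e := by exact_mod_cast hG.a'_pos e
    have hA : (0 : ℝ) < (((l.map G.a).prod : ℕ) : ℝ) := by exact_mod_cast circ_pos G.a hG.a_pos l
    have hA' : (0 : ℝ) < (((l.map G.a').prod : ℕ) : ℝ) := by
      exact_mod_cast circ_pos G.a' hG.a'_pos l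
    set W : ℝ := (((l.map G.a).prod : ℕ) : ℝ) / (((l.map G.a').prod : ℕ) : ℝ) with hW
    have hW0 : 0 < W := div_pos hA hA'
    refine ⟨W * (G.n e + G.a e) + C', by positivity, fun m hm => ?_⟩
    set t : ℕ := m / G.a' e + 1 with ht
    have ht1 : m ≤ G.m e + G.a' e * t := by
      have h1 := Nat.lt_mul_div_succ m (hG.a'_pos e)
      rw [← ht] at h1
      omega
    have ht2 : G.a' e * t ≤ m + G.a' e := by
      rw [ht, mul_add, mul_one]
      exact Nat.add_le_add_right (Nat.mul_div_le m (G.a' e)) _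
    have hm1 : 1 ≤ G.n e + G.a e * t := by
      have := hG.n_pos e
      omega
    obtain ⟨m', hm', hm'1, hm'2⟩ := ih (G.n e + G.a e * t) hm1
    refine ⟨m', hm', ?_, ?_⟩
    · have h2 : ((G.n e + G.a e * t : ℕ) : ℝ) ≤ G.a e / G.a' e * m + (G.n e + G.a e) := by
        have h3 : (G.a' e : ℝ) * t ≤ m + G.a' e := by exact_mod_cast ht2
        have h4 : (G.a e : ℝ) * t ≤ G.a e / G.a' e * m + G.a e := by
          have h5 : (G.a e : ℝ) * t = G.a e / G.a' e * (G.a' e * t) := by
            field_simp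
          have h6 : (G.a e : ℝ) / G.a' e * m + G.a e = G.a e / G.a' e * (m + G.a' e) := by
            field_simp
          rw [h5, h6]
          exact mul_le_mul_of_nonneg_left h3 (div_pos ha ha').le
        push_cast
        linarith
      have h7 := mul_le_mul_of_nonneg_left h2 hW0.le
      have h8 : (((((e :: l).map G.a).prod : ℕ) : ℝ) / ((((e :: l).map G.a').prod : ℕ) : ℝ)) =
          G.a e / G.a' e * W := by
        rw [List.map_cons, List.map_cons, List.prod_cons, List.prod_cons, hW]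
        push_cast
        rw [mul_div_mul_comm]
      rw [h8]
      calc (m' : ℝ) ≤ W * ((G.n e + G.a e * t : ℕ) : ℝ) + C' := hm'1
        _ ≤ W * (G.a e / G.a' e * m + (G.n e + G.a e)) + C' := by linarith
        _ = _ := by ring
    · have h2 := tau_mono hG hτ (G.s e) hm ht1
      have h3 := hτ.le e t
      have h4 := hG.p_pos (G.s e)
      rw [List.length_cons]
      omega

theorem circuit_weight (hG : G.Ok) (hτ : G.IsTau τ) (i : T) (l : List ι)
    (hw : Walk G.s G.d i l i) : (l.map G.a').prod ≤ (l.map G.a).prod := by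
  by_contra hcon
  push Not at hcon
  obtain ⟨C, hC, h⟩ := circ_claim hG hτ hw
  have hA' : (0 : ℝ) < (((l.map G.a').prod : ℕ) : ℝ) := by
    exact_mod_cast circ_pos G.a' hG.a'_pos l
  set q : ℝ := (((l.map G.a).prod : ℕ) : ℝ) / (((l.map G.a').prod : ℕ) : ℝ) with hq
  have hq0 : 0 ≤ q := by positivity
  have hq1 : q < 1 := by
    rw [hq, div_lt_one hA']
    exact_mod_cast hcon
  obtain ⟨B, hB⟩ := exists_nat_gt (C / (1 - q))
  have hB1 : C < B * (1 - q) := (div_lt_iff₀ (by linarith)).1 hB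
  have hBpos : 1 ≤ B := by
    rcases Nat.eq_zero_or_pos B with h0 | h0
    · rw [h0] at hB1
      simp at hB1
      linarith
    · exact h0
  obtain ⟨m, hm, hmax⟩ := Finset.exists_max_image (Finset.Icc 1 B) (τ i)
    ⟨1, Finset.mem_Icc.2 ⟨le_rfl, hBpos⟩⟩
  rw [Finset.mem_Icc] at hm
  obtain ⟨m', hm'1, hm'2, hm'3⟩ := h m hm.1
  have hm'B : m' ≤ B := by
    have h1 : (m : ℝ) ≤ B := by exact_mod_cast hm.2
    have h2 : q * m ≤ q * B := mul_le_mul_of_nonneg_left h1 hq0
    have h3 : (m' : ℝ) ≤ B := by nlinarith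
    exact_mod_cast h3
  have h4 := hmax m' (Finset.mem_Icc.2 ⟨hm'1, hm'B⟩)
  have h5 : l = [] := List.length_eq_zero_iff.1 (by omega)
  subst h5
  simp at hcon

theorem exists_v (hG : G.Ok) (hτ : G.IsTau τ) (hR : G.Bnd R) : ∃ v, G.IsPot R v := by
  classical
  have ha : ∀ e, (0 : ℝ) < G.a e := fun e => by exact_mod_cast hG.a_pos e
  have ha' : ∀ e, (0 : ℝ) < G.a' e := fun e => by exact_mod_cast hG.a'_pos e
  have hprod : ∀ l : List ι, (l.map fun e => (G.a' e : ℝ) / G.a e).prod =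
      (((l.map G.a').prod : ℕ) : ℝ) / (((l.map G.a).prod : ℕ) : ℝ) := by
    intro l
    induction l with
    | nil => simp
    | cons e l ih =>
      rw [List.map_cons, List.prod_cons, ih, List.map_cons, List.prod_cons, List.map_cons,
        List.prod_cons]
      push_cast
      rw [mul_div_mul_comm]
  obtain ⟨c, hc0, -, hce, hcw⟩ := pot_mul G.s G.d (fun e => (G.a' e : ℝ) / G.a e) (fun _ => 1)
    (fun e => div_pos (ha' e) (ha e)) (fun _ => one_pos) (by
      intro v l hw _ _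
      rw [hprod, div_le_one (by exact_mod_cast circ_pos G.a hG.a_pos l)]
      exact_mod_cast circuit_weight hG hτ v l hw)
  choose u l hwalk hnd hcl using hcw
  let v : T → ℕ := fun j => (∏ e ∈ (l j).toFinset, G.a' e) * ∏ e ∈ (l j).toFinsetᶜ, G.a e
  have hv : ∀ j, (v j : ℝ) = c j * ((∏ e, G.a e : ℕ) : ℝ) := by
    intro j
    have hn : (l j).Nodup := (List.Nodup.of_append_left (hnd j)).of_map _
    have h1 : (∏ e, G.a e) = (∏ e ∈ (l j).toFinset, G.a e) * ∏ e ∈ (l j).toFinsetᶜ, G.a e :=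
      (Finset.prod_mul_prod_compl _ _).symm
    have h2 : (0 : ℝ) < (((l j).map G.a).prod : ℕ) := by
      exact_mod_cast circ_pos G.a hG.a_pos (l j)
    rw [hcl j, hprod, one_mul, h1, List.prod_toFinset G.a hn]
    show (((∏ e ∈ (l j).toFinset, G.a' e) * ∏ e ∈ (l j).toFinsetᶜ, G.a e : ℕ) : ℝ) = _
    rw [List.prod_toFinset G.a' hn]
    push_cast
    push_cast at h2
    field_simp
  have hdvd : ∀ i, v i ∣ (∏ e, G.a e) * ∏ e, G.a' e := by
    intro i
    rw [mul_comm]
    exact Nat.mul_dvd_mul (Finset.prod_dvd_prod_of_subset _ _ _ (Finset.subset_univ _))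
      (Finset.prod_dvd_prod_of_subset _ _ _ (Finset.subset_univ _))
  have hApos : 0 < ∏ e, G.a e := Finset.prod_pos fun e _ => hG.a_pos e
  have hA'pos : 0 < ∏ e, G.a' e := Finset.prod_pos fun e _ => hG.a'_pos e
  refine ⟨v, ⟨fun i => ?_, fun e => ?_, fun i => ?_, hdvd⟩⟩
  · exact Nat.mul_pos (Finset.prod_pos fun e _ => hG.a'_pos e)
      (Finset.prod_pos fun e _ => hG.a_pos e)
  · have h1 : (v (G.s e) : ℝ) * G.a' e ≤ v (G.d e) * G.a e := by
      rw [hv, hv]
      have h2 := hce e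
      have h3 : c (G.s e) * G.a' e ≤ c (G.d e) * G.a e := by
        rw [mul_div_assoc'] at h2
        exact (div_le_iff₀ (ha e)).1 h2
      have h4 : (0 : ℝ) ≤ ((∏ e, G.a e : ℕ) : ℝ) := Nat.cast_nonneg _
      calc c (G.s e) * ((∏ e, G.a e : ℕ) : ℝ) * G.a' e =
          c (G.s e) * G.a' e * ((∏ e, G.a e : ℕ) : ℝ) := by ring
        _ ≤ c (G.d e) * G.a e * ((∏ e, G.a e : ℕ) : ℝ) := mul_le_mul_of_nonneg_right h3 h4
        _ = _ := by ring
    exact_mod_cast h1
  · refine (Nat.le_of_dvd (Nat.mul_pos hApos hA'pos) (hdvd i)).trans ?_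
    rw [sq]
    exact Nat.mul_le_mul hR.prod_a hR.prod_a'

end Pool.Agent.LinSched
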