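import Pool.Agent.Lib.MP_b03ab8_lc.A.Basic

/-!
# Module A.Earliest: the earliest schedule exists, is integral and attained

PROOF. Let `t0` be a schedule (consistency). For `k ≥ 1` put
`σ i k = sInf {s i k | s schedule}` (nonempty, bounded below by `0`), for `k = 0` put `0`.
* `σ` is a schedule: `0 ≤ σ`; for a constraint `(m, n)` of the arc `e` and every schedule `s`:
  `σ src m + p ≤ s src m + p ≤ s dst n`, so `σ src m + p ≤ σ dst n` (`le_csInf`). It is the
  earliest one.
* Attained: fix `j`, `n ≥ 1`. Suppose `σ j n ≠ 0` and no constraint into `(j, n)` is an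
  equality. Only finitely many constraints end in `(j, n)`: for each arc `e` of the list
  `G.arcs` with `dst = j` at most one `k` satisfies `n = α k + h` (as `α > 0`), and `k`
  determines `m`. So there is `x < σ j n`, `0 ≤ x`, with `σ src m + p ≤ x` for every constraint
  `(src, m) → (j, n)` (a finite maximum of numbers `< σ j n`, together with `0`; induction on
  the list of arcs is convenient: for every list `L` of arcs contained in `G.arcs` there is
  `x < σ j n`, `0 ≤ x`, good for all the constraints of the arcs in `L`). Let `σ'` be `σ` with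
  the value at `(j, n)` replaced by `x`. It is a schedule: a constraint into `(j, n)` from
  `(i, m) ≠ (j, n)` holds by the choice of `x`; `(i, m) = (j, n)` is impossible, since `σ`
  would satisfy `σ j n + p ≤ σ j n`; a constraint out of `(j, n)` holds because `x < σ j n`.
  So `σ j n ≤ x`, a contradiction.
* Integrality: for every `N : ℕ`, all `i`, `k ≥ 1` with `σ i k < N` satisfy: `σ i k` is a
  natural number. Induction on `N`: if `σ i k ≠ 0` take the attained constraint,
  `σ i k = σ i' m + p`, `p ≥ 1`, so `σ i' m < N - 1`.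
  So there is `τ : T → ℕ → ℕ` with `(τ i k : ℝ) = σ i k` for `k ≥ 1` (for `k = 0` any value,
  `σ i 0 = 0`).
-/

open Finset

namespace Pool.Agent.LinSched

variable {T : Type}

/-- a value which is good for all the constraints into `(j, n)` of the arcs of a list -/
private theorem exists_lower (G : LinGraph T) (σ : T → ℕ → ℝ) (j : T) (n : ℕ)
    (hpos : 0 < σ j n) (L : List (Arc T)) (hL : ∀ e ∈ L, e ∈ G.arcs)
    (hs : ∀ e ∈ G.arcs, ∀ k : ℤ, 0 < k → ∀ m : ℕ, 1 ≤ m → e.dst = j →
      (m : ℤ) = e.α' * k + e.h' → (n : ℤ) = e.α * k + e.h → σ e.src m + G.p e.src < σ j n) :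
    ∃ x : ℝ, 0 ≤ x ∧ x < σ j n ∧ ∀ e ∈ L, ∀ k : ℤ, 0 < k → ∀ m : ℕ, 1 ≤ m → e.dst = j →
      (m : ℤ) = e.α' * k + e.h' → (n : ℤ) = e.α * k + e.h → σ e.src m + G.p e.src ≤ x := by
  induction L with
  | nil => exact ⟨0, le_rfl, hpos, by simp⟩
  | cons a L ih =>
    obtain ⟨x, hx0, hx1, hx⟩ := ih fun e he => hL e (List.mem_cons_of_mem _ he)
    by_cases hex : ∃ k : ℤ, 0 < k ∧ ∃ m : ℕ, 1 ≤ m ∧ a.dst = j ∧
        (m : ℤ) = a.α' * k + a.h' ∧ (n : ℤ) = a.α * k + a.h
    · obtain ⟨k, hk, m, hm, hd, h1, h2⟩ := hex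
      have haG : a ∈ G.arcs := hL a List.mem_cons_self
      refine ⟨max x (σ a.src m + G.p a.src), le_max_of_le_left hx0,
        max_lt hx1 (hs a haG k hk m hm hd h1 h2), ?_⟩
      intro e he k' hk' m' hm' hd' h1' h2'
      rcases List.mem_cons.1 he with rfl | he
      · have hα : (0 : ℤ) < e.α := by exact_mod_cast (G.arcs_pos e haG).1
        have hkk : k' = k := by
          have : (e.α : ℤ) * k' = e.α * k := by linarith
          exact mul_left_cancel₀ hα.ne' this
        subst hkk
        have hmm : m' = m := by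
          have : (m' : ℤ) = m := by rw [h1', h1]
          exact_mod_cast this
        subst hmm
        exact le_max_right _ _
      · exact (hx e he k' hk' m' hm' hd' h1' h2').trans (le_max_left _ _)
    · refine ⟨x, hx0, hx1, ?_⟩
      intro e he k' hk' m' hm' hd' h1' h2'
      rcases List.mem_cons.1 he with rfl | he
      · exact absurd ⟨k', hk', m', hm', hd', h1', h2'⟩ hex
      · exact hx e he k' hk' m' hm' hd' h1' h2'

theorem exists_earliest (G : LinGraph T) (hc : G.Consistent) :
    ∃ τ : T → ℕ → ℕ, G.IsEarliest (fun i k => (τ i k : ℝ)) ∧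
      ∀ j n, 1 ≤ n → τ j n = 0 ∨ ∃ e ∈ G.arcs, ∃ k : ℤ, 0 < k ∧ ∃ m : ℕ, 1 ≤ m ∧
        e.dst = j ∧ (m : ℤ) = e.α' * k + e.h' ∧ (n : ℤ) = e.α * k + e.h ∧
        τ j n = τ e.src m + G.p e.src := by
  classical
  let σ : T → ℕ → ℝ := fun i k =>
    if k = 0 then 0 else sInf {x | ∃ s, G.IsSchedule s ∧ x = s i k}
  have hσ : ∀ i k, 1 ≤ k → σ i k = sInf {x | ∃ s, G.IsSchedule s ∧ x = s i k} := by
    intro i k hk
    change (if k = 0 then 0 else sInf {x | ∃ s, G.IsSchedule s ∧ x = s i k}) = _
    rw [if_neg (by omega)]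
  have hne : ∀ i k, {x | ∃ s, G.IsSchedule s ∧ x = s i k}.Nonempty := fun i k => by
    obtain ⟨t, ht⟩ := hc
    exact ⟨t i k, t, ht, rfl⟩
  have hlow : ∀ s, G.IsSchedule s → ∀ i k, 1 ≤ k → σ i k ≤ s i k := by
    intro s hs i k hk
    rw [hσ i k hk]
    refine csInf_le ⟨0, ?_⟩ ⟨s, hs, rfl⟩
    rintro x ⟨s', hs', rfl⟩
    exact hs'.1 i k hk
  have hge : ∀ i k, 1 ≤ k → ∀ b : ℝ, (∀ s, G.IsSchedule s → b ≤ s i k) → b ≤ σ i k := by
    intro i k hk b hb
    rw [hσ i k hk]
    refine le_csInf (hne i k) ?_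
    rintro x ⟨s, hs, rfl⟩
    exact hb s hs
  have hsch : G.IsSchedule σ := by
    refine ⟨fun i k hk => hge i k hk 0 fun s hs => hs.1 i k hk, ?_⟩
    intro e he k hk m n hm hn h1 h2
    refine hge e.dst n hn _ fun s hs => ?_
    have := hlow s hs e.src m hm
    have h3 := hs.2 e he k hk m n hm hn h1 h2
    linarith
  have hatt : ∀ j n, 1 ≤ n → σ j n = 0 ∨ ∃ e ∈ G.arcs, ∃ k : ℤ, 0 < k ∧ ∃ m : ℕ, 1 ≤ m ∧
        e.dst = j ∧ (m : ℤ) = e.α' * k + e.h' ∧ (n : ℤ) = e.α * k + e.h ∧
        σ j n = σ e.src m + G.p e.src := by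
    intro j n hn
    by_contra hcon
    rw [not_or] at hcon
    obtain ⟨h0, hno⟩ := hcon
    have hpos : 0 < σ j n := lt_of_le_of_ne (hsch.1 j n hn) (Ne.symm h0)
    obtain ⟨x, hx0, hx1, hx⟩ := exists_lower G σ j n hpos G.arcs (fun e he => he) (by
      intro e he k hk m hm hd h1 h2
      have h3 : σ e.src m + G.p e.src ≤ σ j n := by
        rw [← hd]
        exact hsch.2 e he k hk m n hm hn h1 h2
      refine lt_of_le_of_ne h3 fun h4 => hno ⟨e, he, k, hk, m, hm, hd, h1, h2, h4.symm⟩)
    have hs' : G.IsSchedule (fun i k => if i = j ∧ k = n then x else σ i k) := by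
      refine ⟨?_, ?_⟩
      · intro i k hk
        by_cases hik : i = j ∧ k = n
        · simp only [hik, and_self, if_true]
          exact hx0
        · simp only [hik, if_false]
          exact hsch.1 i k hk
      · intro e he k hk m n' hm hn' h1 h2
        have hcs := hsch.2 e he k hk m n' hm hn' h1 h2
        have hp : (0 : ℝ) < G.p e.src := by exact_mod_cast G.p_pos e.src
        by_cases hd : e.dst = j ∧ n' = n
        · have hsrc : ¬ (e.src = j ∧ m = n) := by
            rintro ⟨h3, h4⟩
            rw [hd.1, hd.2, h4] at hcs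
            rw [h3] at hcs hp
            linarith
          simp only [hd, hsrc, and_self, if_true, if_false]
          exact hx e he k hk m hm hd.1 h1 (by rw [← hd.2]; exact h2)
        · by_cases hsrc : e.src = j ∧ m = n
          · simp only [hd, if_false]
            rw [if_pos hsrc]
            rw [hsrc.1, hsrc.2] at hcs
            rw [hsrc.1]
            linarith
          · simp only [hd, hsrc, if_false]
            exact hcs
    have h5 := hlow _ hs' j n hn
    simp only [and_self, if_true] at h5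
    linarith
  have hint : ∀ N : ℕ, ∀ i k, 1 ≤ k → σ i k < N → ∃ a : ℕ, σ i k = a := by
    intro N
    induction N with
    | zero =>
      intro i k hk h
      have := hsch.1 i k hk
      simp only [Nat.cast_zero] at h
      linarith
    | succ N ih =>
      intro i k hk h
      rcases hatt i k hk with h0 | ⟨e, he, k', hk', m, hm, hd, h1, h2, h3⟩
      · exact ⟨0, by rw [h0, Nat.cast_zero]⟩
      · have hp : (1 : ℝ) ≤ G.p e.src := by exact_mod_cast G.p_pos e.src
        obtain ⟨a, ha⟩ := ih e.src m hm (by push_cast at h; linarith)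
        exact ⟨a + G.p e.src, by rw [h3, ha]; push_cast; ring⟩
  have hall : ∀ i k, ∃ a : ℕ, σ i k = a := by
    intro i k
    by_cases hk : k = 0
    · refine ⟨0, ?_⟩
      change (if k = 0 then (0 : ℝ) else sInf {x | ∃ s, G.IsSchedule s ∧ x = s i k}) = _
      rw [if_pos hk, Nat.cast_zero]
    · obtain ⟨N, hN⟩ := exists_nat_gt (σ i k)
      exact hint N i k (by omega) hN
  choose τ hτ using hall
  have hfun : (fun i k => (τ i k : ℝ)) = σ := by
    funext i k
    exact (hτ i k).symm
  refine ⟨τ, ?_, ?_⟩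
  · rw [hfun]
    exact ⟨hsch, hlow⟩
  · intro j n hn
    rcases hatt j n hn with h0 | ⟨e, he, k, hk, m, hm, hd, h1, h2, h3⟩
    · left
      rw [hτ] at h0
      exact_mod_cast h0
    · right
      refine ⟨e, he, k, hk, m, hm, hd, h1, h2, ?_⟩
      rw [hτ, hτ] at h3
      exact_mod_cast h3

end Pool.Agent.LinSched
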