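import Pool.Agent.Lib.MP_b03ab8_lc.A.Lam
import Pool.Agent.Lib.MP_b03ab8_lc.A.Circ

/-!
# Module A.Mu: the slopes

PROOF of `exists_mu`. `pot_mul` on `(T, ι, s, d)` with the weights `w e = a' e / a e`
(positive; closed walks have product `≤ 1` by `circuit_weight`) and the initial values
`lam i * v i > 0` (`IsLam.one_le`). `le`: `c (s e) * (a' e / a e) ≤ c (d e)`. `att`:
`mu j = lam i * v i * ∏ (a' e / a e)`, multiply by `∏ a e`.

PROOF of `mu_rat`. Take `i`, `l` from `att` and `lam i * y0 = x0` from `lam_rat`. Put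
`x = x0 * v i * (l.map a').prod`, `y = y0 * (l.map a).prod`. The arcs in `l` are distinct (their
sources are), so the products over `l` are at most the products over all arcs (all factors are
`≥ 1`), at most `R`. `x ≤ R ^ 5 * R ^ 2 * R`, `y ≤ R ^ 9 * R`.

`mu_pos`: `1 ≤ lam i * v i ≤ mu i`. `mu_le`: `mu j = x / y ≤ x ≤ R ^ 8`.

`mu_gap`: let `Λ_i = mu i / v i`. If `Λ_i < Λ_j` then `Λ_i + 1 / R ^ 24 ≤ Λ_j`: both are
fractions of natural numbers with denominators `y v ≤ R ^ 12`.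
-/

open Finset

namespace Pool.Agent.LinSched

variable {T ι : Type} [Fintype T] [Fintype ι] {G : NGraph T ι} {τ : T → ℕ → ℕ} {R : ℕ}
  {v : T → ℕ}

omit [Fintype T] [Fintype ι] in
private theorem mu_prod (hG : G.Ok) (l : List ι) :
    (l.map (fun e => (G.a' e : ℝ) / G.a e)).prod
      = (((l.map G.a').prod : ℕ) : ℝ) / (((l.map G.a).prod : ℕ) : ℝ) ∧
    0 < (l.map G.a).prod ∧ 0 < (l.map G.a').prod := by
  induction l with
  | nil => simp
  | cons e l ih =>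
    simp only [List.map_cons, List.prod_cons]
    refine ⟨?_, Nat.mul_pos (hG.a_pos e) ih.2.1, Nat.mul_pos (hG.a'_pos e) ih.2.2⟩
    rw [ih.1]
    push_cast
    rw [div_mul_div_comm]

omit [Fintype T] in
private theorem mu_prod_le (f : ι → ℕ) (hf : ∀ e, 0 < f e) {l : List ι} (hl : l.Nodup) :
    (l.map f).prod ≤ ∏ e, f e := by
  classical
  rw [← List.prod_toFinset f hl]
  exact Finset.prod_le_prod_of_subset_of_one_le' (Finset.subset_univ _) (fun e _ _ => hf e)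

theorem exists_mu (hG : G.Ok) (hτ : G.IsTau τ) (hR : G.Bnd R) (hv : G.IsPot R v)
    {lam : T → ℝ} (hl : G.IsLam v lam) : ∃ mu, G.IsMu v lam mu := by
  have hapos : ∀ e, (0 : ℝ) < G.a e := fun e => by exact_mod_cast hG.a_pos e
  have ha'pos : ∀ e, (0 : ℝ) < G.a' e := fun e => by exact_mod_cast hG.a'_pos e
  obtain ⟨c, h0, h1, h2, h3⟩ := pot_mul G.s G.d (fun e => (G.a' e : ℝ) / G.a e)
    (fun i => lam i * v i) (fun e => div_pos (ha'pos e) (hapos e))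
    (fun i => lt_of_lt_of_le one_pos (hl.one_le i))
    (fun i l hw _ _ => by
      obtain ⟨e1, e2, _⟩ := mu_prod hG l
      rw [e1, div_le_one (by exact_mod_cast e2)]
      exact_mod_cast circuit_weight hG hτ i l hw)
  refine ⟨c, h1, fun e => ?_, fun j => ?_⟩
  · have := h2 e
    rw [← mul_div_assoc, div_le_iff₀ (hapos e)] at this
    exact this
  · obtain ⟨i, l, hw, hnd, hc⟩ := h3 j
    refine ⟨i, l, hw, hnd, ?_⟩
    obtain ⟨e1, e2, _⟩ := mu_prod hG l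
    have e3 : (((l.map G.a).prod : ℕ) : ℝ) ≠ 0 := by exact_mod_cast e2.ne'
    rw [hc, e1]
    field_simp

theorem mu_rat (hG : G.Ok) (hτ : G.IsTau τ) (hR : G.Bnd R) (hv : G.IsPot R v) {lam : T → ℝ}
    (hl : G.IsLam v lam) {mu : T → ℝ} (hm : G.IsMu v lam mu) (j : T) :
    ∃ x y : ℕ, 0 < x ∧ 0 < y ∧ x ≤ R ^ 8 ∧ y ≤ R ^ 10 ∧ mu j * y = x := by
  obtain ⟨i, l, hw, hnd, hc⟩ := hm.att j
  obtain ⟨x0, y0, hx0, hy0, hx1, hy1, hxy⟩ := lam_rat hG hτ hR hv hl i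
  obtain ⟨_, e2, e3⟩ := mu_prod hG l
  have hln : l.Nodup := (List.Nodup.of_append_left hnd).of_map _
  have b1 : (l.map G.a).prod ≤ R := (mu_prod_le G.a hG.a_pos hln).trans hR.prod_a
  have b2 : (l.map G.a').prod ≤ R := (mu_prod_le G.a' hG.a'_pos hln).trans hR.prod_a'
  refine ⟨x0 * v i * (l.map G.a').prod, y0 * (l.map G.a).prod,
    Nat.mul_pos (Nat.mul_pos hx0 (hv.pos i)) e3, Nat.mul_pos hy0 e2, ?_, ?_, ?_⟩
  · calc x0 * v i * (l.map G.a').prod ≤ R ^ 5 * R ^ 2 * R :=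
          Nat.mul_le_mul (Nat.mul_le_mul hx1 (hv.bd i)) b2
      _ = R ^ 8 := by ring
  · calc y0 * (l.map G.a).prod ≤ R ^ 9 * R := Nat.mul_le_mul hy1 b1
      _ = R ^ 10 := by ring
  · rw [Nat.cast_mul, Nat.cast_mul, Nat.cast_mul]
    linear_combination (y0 : ℝ) * hc + (v i : ℝ) * ((l.map G.a').prod : ℕ) * hxy

theorem mu_ge_one {lam : T → ℝ} (hl : G.IsLam v lam) {mu : T → ℝ} (hm : G.IsMu v lam mu)
    (j : T) : 1 ≤ mu j :=
  (hl.one_le j).trans (hm.ge j)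

theorem mu_le (hG : G.Ok) (hτ : G.IsTau τ) (hR : G.Bnd R) (hv : G.IsPot R v) {lam : T → ℝ}
    (hl : G.IsLam v lam) {mu : T → ℝ} (hm : G.IsMu v lam mu) (j : T) :
    mu j ≤ (R : ℝ) ^ 8 := by
  obtain ⟨x, y, hx, hy, hx1, hy1, hxy⟩ := mu_rat hG hτ hR hv hl hm j
  have h1 := mu_ge_one hl hm j
  have h2 : (1 : ℝ) ≤ y := by exact_mod_cast hy
  have h3 : (x : ℝ) ≤ (R : ℝ) ^ 8 := by exact_mod_cast hx1
  nlinarith

theorem mu_gap (hG : G.Ok) (hτ : G.IsTau τ) (hR : G.Bnd R) (hv : G.IsPot R v) {lam : T → ℝ}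
    (hl : G.IsLam v lam) {mu : T → ℝ} (hm : G.IsMu v lam mu) (i j : T)
    (h : mu i / v i < mu j / v j) : mu i / v i + 1 / (R : ℝ) ^ 24 ≤ mu j / v j := by
  obtain ⟨x, y, hx, hy, hx1, hy1, hxy⟩ := mu_rat hG hτ hR hv hl hm i
  obtain ⟨x', y', hx', hy', hx1', hy1', hxy'⟩ := mu_rat hG hτ hR hv hl hm j
  have p1 : (0 : ℝ) < y := by exact_mod_cast hy
  have p2 : (0 : ℝ) < y' := by exact_mod_cast hy'
  have p3 : (0 : ℝ) < v i := by exact_mod_cast hv.pos i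
  have p4 : (0 : ℝ) < v j := by exact_mod_cast hv.pos j
  have e1 : mu i = x / y := by rw [eq_div_iff p1.ne']; exact hxy
  have e2 : mu j = x' / y' := by rw [eq_div_iff p2.ne']; exact hxy'
  rw [e1, e2, div_div, div_div] at h ⊢
  have q1 : (0 : ℝ) < y * v i := mul_pos p1 p3
  have q2 : (0 : ℝ) < y' * v j := mul_pos p2 p4
  rw [div_lt_div_iff₀ q1 q2] at h
  have h1 : x * (y' * v j) + 1 ≤ x' * (y * v i) := by exact_mod_cast h
  have h2 : (x : ℝ) * (y' * v j) + 1 ≤ x' * (y * v i) := by exact_mod_cast h1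
  have b1 : y * v i ≤ R ^ 12 := by
    calc y * v i ≤ R ^ 10 * R ^ 2 := Nat.mul_le_mul hy1 (hv.bd i)
      _ = R ^ 12 := by ring
  have b2 : y' * v j ≤ R ^ 12 := by
    calc y' * v j ≤ R ^ 10 * R ^ 2 := Nat.mul_le_mul hy1' (hv.bd j)
      _ = R ^ 12 := by ring
  have b3 : (y : ℝ) * v i * (y' * v j) ≤ (R : ℝ) ^ 24 := by
    have : y * v i * (y' * v j) ≤ R ^ 24 := by
      calc y * v i * (y' * v j) ≤ R ^ 12 * R ^ 12 := Nat.mul_le_mul b1 b2
        _ = R ^ 24 := by ring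
    exact_mod_cast this
  have q3 : (0 : ℝ) < y * v i * (y' * v j) := mul_pos q1 q2
  have h3 : 1 / (R : ℝ) ^ 24 ≤ 1 / ((y : ℝ) * v i * (y' * v j)) :=
    one_div_le_one_div_of_le q3 b3
  have h4 : (x : ℝ) / (y * v i) + 1 / ((y : ℝ) * v i * (y' * v j)) ≤ x' / (y' * v j) := by
    have h5 : (x : ℝ) / (y * v i) + 1 / ((y : ℝ) * v i * (y' * v j))
        = (x * (y' * v j) + 1) / (y * v i * (y' * v j)) := by
      field_simp
    rw [h5, div_le_div_iff₀ q3 q2]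
    nlinarith
  linarith

end Pool.Agent.LinSched
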