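import Pool.Agent.Lib.MP_b03ab8_lc.A.LowA
import Pool.Agent.Lib.MP_b03ab8_lc.A.Mu

/-!
# Module A.LowB: lower bound with the slope `mu`

PROOF. Step along an arc: let `κ ≥ 0`, `C ≥ 0` and `κ m - C ≤ τ (s e) m` for all `m ≥ 1`. Then
for all `n ≥ 1`: `(κ a' / a) n - (C + κ a' (n_e + 1)) ≤ τ (d e) n` (`a = G.a e` etc.). Indeed if
`n ≥ n_e` put `t = (n - n_e) / a` (in `ℕ`), `a t > n - n_e - a`; then
`τ (d e) n ≥ τ (d e) (n_e + a t) ≥ τ (s e) (m_e + a' t) ≥ κ (m_e + a' t) - C ≥ κ a' t - C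
≥ κ a' ((n - n_e) / a - 1) - C ≥ (κ a' / a) n - κ a' n_e - κ a' - C` (`tau_mono`,
`IsTau.le`, `a ≥ 1`). If `n < n_e`: `(κ a' / a) n ≤ κ a' n_e`.

Take `i`, `l` from `IsMu.att` for `j`; the arcs of `l` are distinct, so every product of `a'`
over an initial part of `l` is at most `∏ a' ≤ R`. With `κ_r = lam i v i ∏_{first r} (a' / a)
≤ R ^ 5 R ^ 2 R = R ^ 8` (`lam_rat` gives `lam i ≤ R ^ 5`; `a ≥ 1`), each step adds at most
`R ^ 8 R (R ^ 3 + 1) ≤ R ^ 13` to the constant; there are at most `card ι ≤ R` steps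
(`l` nodup) [or `l.length ≤ card T ≤ R`]. Start: `low_crit` with `C = R ^ 18`. Total:
`R ^ 18 + R ^ 14 ≤ R ^ 21`, and the last `κ` is `mu j`.

A convenient induction: for all lists `l`, walks from `i` to `j`, and all `κ, C ≥ 0`, `B ≥ 0`
such that `κ m - C ≤ τ i m` for all `m ≥ 1` and `κ ∏_{l1} a' ≤ B` for every initial part `l1`
of `l`: `κ (∏_l a' / ∏_l a) n - (C + l.length * B (R ^ 3 + 1)) ≤ τ j n` for all `n ≥ 1`.
-/

open Finset

namespace Pool.Agent.LinSched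

variable {T ι : Type} [Fintype T] [Fintype ι] {G : NGraph T ι} {τ : T → ℕ → ℕ} {R : ℕ}
  {v : T → ℕ}

private theorem lowb_step (hG : G.Ok) (hτ : G.IsTau τ) (hR : G.Bnd R) (e : ι) {κ C : ℝ}
    (hκ : 0 ≤ κ) (hC : 0 ≤ C) (h : ∀ m : ℕ, 1 ≤ m → κ * m - C ≤ τ (G.s e) m) (n : ℕ)
    (_ : 1 ≤ n) :
    κ * (G.a' e / G.a e) * n - (C + κ * G.a' e * ((R : ℝ) ^ 3 + 1)) ≤ τ (G.d e) n := by
  have ha : (1 : ℝ) ≤ G.a e := by exact_mod_cast hG.a_pos e
  have ha0 : (0 : ℝ) < G.a e := by linarith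
  have ha' : (0 : ℝ) < G.a' e := by exact_mod_cast hG.a'_pos e
  have hne : (G.n e : ℝ) ≤ (R : ℝ) ^ 3 := by exact_mod_cast hR.n_le e
  have hne0 : (0 : ℝ) ≤ G.n e := Nat.cast_nonneg _
  have hk : 0 ≤ κ * G.a' e := mul_nonneg hκ ha'.le
  have hτ0 : (0 : ℝ) ≤ τ (G.d e) n := Nat.cast_nonneg _
  have hq : κ * (G.a' e / G.a e) * n = κ * G.a' e * (n / G.a e) := by ring
  rw [hq]
  rcases le_or_gt (G.n e) n with hle | hlt
  · set t : ℕ := (n - G.n e) / G.a e with ht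
    have h1 : n - G.n e < G.a e * (t + 1) := Nat.lt_mul_div_succ _ (hG.a_pos e)
    have h2 : G.a e * t ≤ n - G.n e := Nat.mul_div_le _ _
    have h3 : G.n e + G.a e * t ≤ n := by omega
    have h4 : 1 ≤ G.n e + G.a e * t := by
      have := hG.n_pos e
      omega
    have h5 := tau_mono hG hτ (G.d e) h4 h3
    have h6 := hτ.le e t
    have h7 : 1 ≤ G.m e + G.a' e * t := by
      have := hG.m_pos e
      omega
    have h8 := h _ h7
    have h9 : (τ (G.s e) (G.m e + G.a' e * t) : ℝ) ≤ τ (G.d e) n := by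
      have : τ (G.s e) (G.m e + G.a' e * t) ≤ τ (G.d e) n := by omega
      exact_mod_cast this
    have h10 : (n : ℝ) - G.n e ≤ G.a e * (t + 1) := by
      have h11 : n ≤ G.a e * (t + 1) + G.n e := by omega
      have h12 : (n : ℝ) ≤ G.a e * (t + 1) + G.n e := by exact_mod_cast h11
      linarith
    have h13 : (n : ℝ) / G.a e ≤ t + 1 + G.n e := by
      rw [div_le_iff₀ ha0]
      nlinarith
    have h14 : κ * G.a' e * (n / G.a e) ≤ κ * G.a' e * (t + 1 + (R : ℝ) ^ 3) :=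
      mul_le_mul_of_nonneg_left (by linarith) hk
    have h15 : κ * (G.a' e * t) ≤ κ * ((G.m e + G.a' e * t : ℕ) : ℝ) := by
      refine mul_le_mul_of_nonneg_left ?_ hκ
      push_cast
      have : (0 : ℝ) ≤ G.m e := Nat.cast_nonneg _
      linarith
    have h16 : κ * G.a' e * (t + 1 + (R : ℝ) ^ 3) =
        κ * (G.a' e * t) + κ * G.a' e * ((R : ℝ) ^ 3 + 1) := by ring
    linarith
  · have h1 : (n : ℝ) / G.a e ≤ (R : ℝ) ^ 3 + 1 := by
      have h2 : (n : ℝ) ≤ G.n e := by exact_mod_cast hlt.le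
      have h3 : (n : ℝ) / G.a e ≤ n := div_le_self (Nat.cast_nonneg _) ha
      linarith
    have h4 := mul_le_mul_of_nonneg_left h1 hk
    linarith

private theorem lowb_walk (hG : G.Ok) (hτ : G.IsTau τ) (hR : G.Bnd R) {i j : T} {l : List ι}
    (hw : Walk G.s G.d i l j) : ∀ {κ C Q : ℝ}, 0 ≤ κ → 0 ≤ C → 0 ≤ Q →
    (∀ m : ℕ, 1 ≤ m → κ * m - C ≤ τ i m) →
    (∀ l1 l2, l = l1 ++ l2 → κ * (((l1.map G.a').prod : ℕ) : ℝ) ≤ Q) →
    ∀ n : ℕ, 1 ≤ n →
      κ * ((((l.map G.a').prod : ℕ) : ℝ) / (((l.map G.a).prod : ℕ) : ℝ)) * n -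
        (C + l.length * (Q * ((R : ℝ) ^ 3 + 1))) ≤ τ j n := by
  induction hw with
  | nil v =>
    intro κ C Q hκ hC hQ h _ n hn
    have := h n hn
    simpa using this
  | @cons e l v hw ih =>
    intro κ C Q hκ hC hQ h hl n hn
    have ha : (1 : ℝ) ≤ G.a e := by exact_mod_cast hG.a_pos e
    have ha0 : (0 : ℝ) < G.a e := by linarith
    have ha' : (0 : ℝ) < G.a' e := by exact_mod_cast hG.a'_pos e
    have hk : 0 ≤ κ * (G.a' e / G.a e) := mul_nonneg hκ (div_pos ha' ha0).le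
    have hR3 : (0 : ℝ) ≤ (R : ℝ) ^ 3 + 1 := by positivity
    have hQe : κ * G.a' e ≤ Q := by
      have h1 := hl [e] l rfl
      simpa using h1
    have hstep : ∀ m : ℕ, 1 ≤ m → κ * (G.a' e / G.a e) * m - (C + Q * ((R : ℝ) ^ 3 + 1)) ≤
        τ (G.d e) m := by
      intro m hm
      have h1 := lowb_step hG hτ hR e hκ hC h m hm
      have h2 := mul_le_mul_of_nonneg_right hQe hR3
      linarith
    have hl' : ∀ l1 l2, l = l1 ++ l2 →
        κ * (G.a' e / G.a e) * (((l1.map G.a').prod : ℕ) : ℝ) ≤ Q := by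
      intro l1 l2 h12
      have h1 := hl (e :: l1) l2 (by rw [h12, List.cons_append])
      rw [List.map_cons, List.prod_cons, Nat.cast_mul] at h1
      refine le_trans ?_ h1
      have h2 : κ * (G.a' e / G.a e) ≤ κ * G.a' e :=
        mul_le_mul_of_nonneg_left (div_le_self ha'.le ha) hκ
      have h3 : (0 : ℝ) ≤ (((l1.map G.a').prod : ℕ) : ℝ) := Nat.cast_nonneg _
      have h4 := mul_le_mul_of_nonneg_right h2 h3
      linarith
    have h5 := ih hk (add_nonneg hC (mul_nonneg hQ hR3)) hQ hstep hl' n hn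
    have h6 : κ * (((((e :: l).map G.a').prod : ℕ) : ℝ) / ((((e :: l).map G.a).prod : ℕ) : ℝ)) =
        κ * (G.a' e / G.a e) * ((((l.map G.a').prod : ℕ) : ℝ) / (((l.map G.a).prod : ℕ) : ℝ)) := by
      rw [List.map_cons, List.map_cons, List.prod_cons, List.prod_cons, Nat.cast_mul, Nat.cast_mul,
        mul_div_mul_comm]
      ring
    rw [h6, List.length_cons, Nat.cast_add, Nat.cast_one]
    linarith

omit [Fintype T] in
private theorem lowb_prod_le (f : ι → ℕ) (hf : ∀ e, 0 < f e) {l : List ι} (hl : l.Nodup) :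
    (l.map f).prod ≤ ∏ e, f e := by
  classical
  rw [← List.prod_toFinset f hl]
  exact Finset.prod_le_prod_of_subset_of_one_le' (Finset.subset_univ _) (fun e _ _ => hf e)

theorem low_mu (hG : G.Ok) (hτ : G.IsTau τ) (hR : G.Bnd R) (hv : G.IsPot R v) {lam : T → ℝ}
    (hl : G.IsLam v lam) {mu : T → ℝ} (hm : G.IsMu v lam mu) (j : T) (n : ℕ) (hn : 1 ≤ n) :
    mu j * n - (R : ℝ) ^ 21 ≤ τ j n := by
  obtain ⟨i, l, hw, hnd, hatt⟩ := hm.att j
  obtain ⟨x, y, hx, hy, hx5, -, hxy⟩ := lam_rat hG hτ hR hv hl i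
  have hln : l.Nodup := (List.Nodup.of_append_left hnd).of_map _
  have hκ1 : 1 ≤ lam i * v i := hl.one_le i
  have hvi : (0 : ℝ) < v i := by exact_mod_cast hv.pos i
  have hlam0 : 0 < lam i := by
    by_contra hcon
    push Not at hcon
    have := mul_nonpos_of_nonpos_of_nonneg hcon hvi.le
    linarith
  have hlam : lam i ≤ (R : ℝ) ^ 5 := by
    have h1 : (1 : ℝ) ≤ y := by exact_mod_cast hy
    have h2 : (x : ℝ) ≤ (R : ℝ) ^ 5 := by exact_mod_cast hx5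
    nlinarith
  have hv2 : (v i : ℝ) ≤ (R : ℝ) ^ 2 := by exact_mod_cast hv.bd i
  have hκ7 : lam i * v i ≤ (R : ℝ) ^ 7 := by
    calc lam i * v i ≤ (R : ℝ) ^ 5 * (R : ℝ) ^ 2 :=
          mul_le_mul hlam hv2 hvi.le (by positivity)
      _ = (R : ℝ) ^ 7 := by ring
  have hlen : (l.length : ℝ) ≤ R := by
    have h1 : l.length ≤ Fintype.card ι := hln.length_le_card
    exact_mod_cast h1.trans hR.cardI
  have hA : (0 : ℝ) < (((l.map G.a).prod : ℕ) : ℝ) := by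
    have : 0 < (l.map G.a).prod := List.prod_pos fun x hx => by
      obtain ⟨e, _, rfl⟩ := List.mem_map.1 hx
      exact hG.a_pos e
    exact_mod_cast this
  have hmain := lowb_walk hG hτ hR hw (κ := lam i * v i) (C := (R : ℝ) ^ 18) (Q := (R : ℝ) ^ 8)
    (by linarith) (by positivity) (by positivity)
    (fun m hm => low_crit hG hτ hR hv hl i m hm) (by
      intro l1 l2 h12
      have h1 : l1.Nodup := by
        rw [h12] at hln
        exact hln.of_append_left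
      have h2 : (((l1.map G.a').prod : ℕ) : ℝ) ≤ R := by
        exact_mod_cast (lowb_prod_le G.a' hG.a'_pos h1).trans hR.prod_a'
      calc lam i * v i * (((l1.map G.a').prod : ℕ) : ℝ) ≤ (R : ℝ) ^ 7 * R :=
            mul_le_mul hκ7 h2 (Nat.cast_nonneg _) (by positivity)
        _ = (R : ℝ) ^ 8 := by ring) n hn
  have h3 : lam i * v i * ((((l.map G.a').prod : ℕ) : ℝ) / (((l.map G.a).prod : ℕ) : ℝ)) = mu j := by
    rw [← mul_div_assoc, div_eq_iff hA.ne']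
    exact hatt.symm
  rw [h3] at hmain
  have hR2 : (2 : ℝ) ≤ R := by exact_mod_cast hR.two_le
  have h4 : (l.length : ℝ) * ((R : ℝ) ^ 8 * ((R : ℝ) ^ 3 + 1)) ≤
      R * ((R : ℝ) ^ 8 * ((R : ℝ) ^ 3 + 1)) :=
    mul_le_mul_of_nonneg_right hlen (by positivity)
  have h5 : (R : ℝ) ^ 12 ≤ (R : ℝ) ^ 18 := pow_le_pow_right₀ (by linarith) (by norm_num)
  have h6 : (R : ℝ) ^ 9 ≤ (R : ℝ) ^ 18 := pow_le_pow_right₀ (by linarith) (by norm_num)
  have h7 : (8 : ℝ) * (R : ℝ) ^ 18 ≤ (R : ℝ) ^ 21 := by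
    have h8 : (8 : ℝ) ≤ (R : ℝ) ^ 3 := by
      calc (8 : ℝ) = 2 ^ 3 := by norm_num
        _ ≤ (R : ℝ) ^ 3 := pow_le_pow_left₀ (by norm_num) hR2 3
    calc (8 : ℝ) * (R : ℝ) ^ 18 ≤ (R : ℝ) ^ 3 * (R : ℝ) ^ 18 :=
          mul_le_mul_of_nonneg_right h8 (by positivity)
      _ = (R : ℝ) ^ 21 := by ring
  have h9 : (0 : ℝ) ≤ (R : ℝ) ^ 18 := by positivity
  have h10 : (R : ℝ) * ((R : ℝ) ^ 8 * ((R : ℝ) ^ 3 + 1)) = (R : ℝ) ^ 12 + (R : ℝ) ^ 9 := by ring
  linarith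

end Pool.Agent.LinSched
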