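import Pool.Agent.Lib.MP_b03ab8_lc.A.Basic

/-!
# Module A.Norm: from linear graphs to normalized graphs

PROOF. Let `e` be an arc, `α = e.α ≥ 1`, `α' = e.α' ≥ 1`. By `Int.le_ediv_iff_mul_le` (or
`Int.ediv_lt_iff_lt_mul`), `(α' - h') / α' ≤ k ↔ 1 ≤ α' k + h'` for integers `k`
(`(α' - h') / α' ≤ k ↔ (α' - h') / α' < k + 1 ↔ α' - h' < (k + 1) α' ↔ 0 < α' k + h'`), and
the same for `α`, `h`. So for integers `k`: `k1 ≤ k` iff `k ≥ 1`, `1 ≤ α' k + h'` and
`1 ≤ α k + h`. In particular `m1 = α' k1 + h' ≥ 1` and `n1 = α k1 + h ≥ 1` as integers.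

`norm_ok`: positivity from `p_pos`, `arcs_pos` and the above; a loop `α = α' = 1`, `h = 1`,
`h' = 0` has `k1 = max 1 (max (1 / 1) (0 / 1)) = 1`, `m1 = 1`, `n1 = 2`; an element of
`G.arcs` is `G.arcs.get k` for some `k` (`List.get_of_mem`).

`norm_isTau`: `le`: the instance `k = k1 + t` of the arc: `m = m1 + α' t`, `n = n1 + α t`
(cast the real inequality to `ℕ`). `att`: given `e`, `k`, `m`, put `t = (k - k1).toNat`.

`norm_bnd` with `R = 2 ^ (size + 1)`: every summand of `size` is at most `size`: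
`card T ≤ size` (each task contributes at least one), the number of arcs is `≤ size`,
`p i < 2 ^ (p i).size ≤ 2 ^ size` (`Nat.lt_size_self`), the same for `α`, `α'`, `|h|`, `|h'|`,
and `card T ≤ size ≤ 2 ^ size`. `k1 ≤ 1 + |h'| + |h| ...`: precisely, from
`(α' - h') / α' ≤ 1 + |h'|` and `(α - h) / α ≤ 1 + |h|` we get `k1 ≤ 1 + 2 ^ size`, so
`m1 ≤ α' (1 + 2 ^ size) + 2 ^ size ≤ x (1 + x) + x = x ^ 2 + 2 x ≤ (2 x) ^ 3` for
`x = 2 ^ size ≥ 1`; same for `n1`. Products: `∏ α ≤ ∏ 2 ^ (α).size = 2 ^ (∑ (α).size)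
≤ 2 ^ size` (the product over `Fin G.arcs.length` is the product of the list,
`List.prod_ofFn` / `Fin.prod_univ_get`, or induction on the list).
-/

open Finset

namespace Pool.Agent.LinSched

variable {T : Type}

private theorem ediv_le_iff' {α : ℕ} (hα : 0 < α) (h k : ℤ) :
    ((α : ℤ) - h) / α ≤ k ↔ 1 ≤ (α : ℤ) * k + h := by
  have h0 : (0 : ℤ) < α := by exact_mod_cast hα
  rw [← Int.lt_add_one_iff, Int.ediv_lt_iff_lt_mul h0]
  constructor
  · intro h1; nlinarith
  · intro h1; nlinarith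

private theorem k1_le_iff (e : Arc T) (hα : 0 < e.α) (hα' : 0 < e.α') (k : ℤ) :
    e.k1 ≤ k ↔ 1 ≤ k ∧ 1 ≤ (e.α' : ℤ) * k + e.h' ∧ 1 ≤ (e.α : ℤ) * k + e.h := by
  unfold Arc.k1
  rw [max_le_iff, max_le_iff, ediv_le_iff' hα', ediv_le_iff' hα]

private theorem k1_spec (e : Arc T) (hα : 0 < e.α) (hα' : 0 < e.α') :
    1 ≤ e.k1 ∧ 1 ≤ (e.α' : ℤ) * e.k1 + e.h' ∧ 1 ≤ (e.α : ℤ) * e.k1 + e.h :=
  (k1_le_iff e hα hα' e.k1).1 le_rfl

private theorem m1_cast (e : Arc T) (hα : 0 < e.α) (hα' : 0 < e.α') :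
    (e.m1 : ℤ) = (e.α' : ℤ) * e.k1 + e.h' := by
  have := (k1_spec e hα hα').2.1
  unfold Arc.m1
  rw [Int.toNat_of_nonneg (by linarith)]

private theorem n1_cast (e : Arc T) (hα : 0 < e.α) (hα' : 0 < e.α') :
    (e.n1 : ℤ) = (e.α : ℤ) * e.k1 + e.h := by
  have := (k1_spec e hα hα').2.2
  unfold Arc.n1
  rw [Int.toNat_of_nonneg (by linarith)]

private theorem get_pos (G : LinGraph T) (k : Fin G.arcs.length) :
    0 < (G.arcs.get k).α ∧ 0 < (G.arcs.get k).α' :=
  G.arcs_pos _ (List.get_mem _ _)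

theorem norm_ok (G : LinGraph T) (hn : G.NonReentrant) : G.norm.Ok := by
  refine ⟨G.p_pos, fun k => (get_pos G k).1, fun k => (get_pos G k).2, fun k => ?_, fun k => ?_,
    fun i => ?_⟩
  · obtain ⟨h1, h2⟩ := get_pos G k
    have h3 := m1_cast _ h1 h2
    have h4 := (k1_spec _ h1 h2).2.1
    show 0 < (G.arcs.get k).m1
    omega
  · obtain ⟨h1, h2⟩ := get_pos G k
    have h3 := n1_cast _ h1 h2
    have h4 := (k1_spec _ h1 h2).2.2
    show 0 < (G.arcs.get k).n1
    omega
  · obtain ⟨e, he, h1, h2, h3, h4, h5, h6⟩ := hn i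
    obtain ⟨k, hk⟩ := List.get_of_mem he
    have hk1 : e.k1 = 1 := by
      unfold Arc.k1
      rw [h3, h4, h5, h6]
      norm_num
    refine ⟨k, ?_, ?_, ?_, ?_, ?_, ?_⟩
    · show (G.arcs.get k).src = i
      rw [hk, h1]
    · show (G.arcs.get k).dst = i
      rw [hk, h2]
    · show (G.arcs.get k).α = 1
      rw [hk, h3]
    · show (G.arcs.get k).α' = 1
      rw [hk, h4]
    · show (G.arcs.get k).m1 = 1
      rw [hk]
      unfold Arc.m1
      rw [hk1, h4, h6]
      norm_num
    · show (G.arcs.get k).n1 = 2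
      rw [hk]
      unfold Arc.n1
      rw [hk1, h3, h5]
      rfl

theorem norm_isTau (G : LinGraph T) (τ : T → ℕ → ℕ)
    (he : G.IsEarliest (fun i k => (τ i k : ℝ)))
    (ha : ∀ j n, 1 ≤ n → τ j n = 0 ∨ ∃ e ∈ G.arcs, ∃ k : ℤ, 0 < k ∧ ∃ m : ℕ, 1 ≤ m ∧
        e.dst = j ∧ (m : ℤ) = e.α' * k + e.h' ∧ (n : ℤ) = e.α * k + e.h ∧
        τ j n = τ e.src m + G.p e.src) : G.norm.IsTau τ := by
  constructor
  · intro k t
    obtain ⟨h1, h2⟩ := get_pos G k
    have hm := m1_cast _ h1 h2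
    have hn := n1_cast _ h1 h2
    obtain ⟨h3, h4, h5⟩ := k1_spec _ h1 h2
    have h := he.1.2 (G.arcs.get k) (List.get_mem _ _) ((G.arcs.get k).k1 + t) (by omega)
      ((G.arcs.get k).m1 + (G.arcs.get k).α' * t) ((G.arcs.get k).n1 + (G.arcs.get k).α * t)
      (by omega) (by omega) (by push_cast; rw [hm]; ring) (by push_cast; rw [hn]; ring)
    simp only at h
    show τ (G.arcs.get k).src ((G.arcs.get k).m1 + (G.arcs.get k).α' * t)
      + G.p (G.arcs.get k).src ≤ τ (G.arcs.get k).dst ((G.arcs.get k).n1 + (G.arcs.get k).α * t)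
    exact_mod_cast h
  · intro j n hn
    rcases ha j n hn with h | ⟨e, heG, k, hk, m, hm, hj, h1, h2, h3⟩
    · exact Or.inl h
    · right
      obtain ⟨i, hi⟩ := List.get_of_mem heG
      obtain ⟨p1, p2⟩ := G.arcs_pos e heG
      have hk1 : e.k1 ≤ k := by
        rw [k1_le_iff e p1 p2]
        refine ⟨by omega, by rw [← h1]; omega, by rw [← h2]; omega⟩
      have hm1 := m1_cast e p1 p2
      have hn1 := n1_cast e p1 p2
      obtain ⟨t, ht⟩ : ∃ t : ℕ, k = e.k1 + t := ⟨(k - e.k1).toNat, by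
        rw [Int.toNat_of_nonneg (by linarith)]; ring⟩
      have hmt : m = e.m1 + e.α' * t := by
        have : (m : ℤ) = ((e.m1 + e.α' * t : ℕ) : ℤ) := by
          push_cast
          rw [h1, hm1, ht]; ring
        exact_mod_cast this
      have hnt : n = e.n1 + e.α * t := by
        have : (n : ℤ) = ((e.n1 + e.α * t : ℕ) : ℤ) := by
          push_cast
          rw [h2, hn1, ht]; ring
        exact_mod_cast this
      refine ⟨i, t, ?_, ?_, ?_⟩
      · show (G.arcs.get i).dst = j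
        rw [hi, hj]
      · show n = (G.arcs.get i).n1 + (G.arcs.get i).α * t
        rw [hi, ← hnt]
      · show τ j n = τ (G.arcs.get i).src ((G.arcs.get i).m1 + (G.arcs.get i).α' * t)
          + G.p (G.arcs.get i).src
        rw [hi, ← hmt, h3]

private theorem arc_size_le [Fintype T] (G : LinGraph T) {e : Arc T} (he : e ∈ G.arcs) :
    2 * (Fintype.card T).size + e.α.size + e.α'.size
    + (1 + e.h.natAbs.size) + (1 + e.h'.natAbs.size) ≤ G.size := by
  unfold LinGraph.size
  have := List.single_le_sum (l := G.arcs.map fun e => 2 * (Fintype.card T).size + e.α.size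
    + e.α'.size + (1 + e.h.natAbs.size) + (1 + e.h'.natAbs.size)) (by simp) _
    (List.mem_map_of_mem he)
  omega

private theorem lt_two_pow_of_size_le {a N : ℕ} (h : a.size ≤ N) : a < 2 ^ N :=
  lt_of_lt_of_le (Nat.lt_size_self a) (Nat.pow_le_pow_right (by norm_num) h)

private theorem k1_le (e : Arc T) (hα : 0 < e.α) (hα' : 0 < e.α') {x : ℤ}
    (h : |e.h| ≤ x) (h' : |e.h'| ≤ x) : e.k1 ≤ 1 + x := by
  rw [k1_le_iff e hα hα']
  have h0 : (1 : ℤ) ≤ e.α := by exact_mod_cast hα
  have h0' : (1 : ℤ) ≤ e.α' := by exact_mod_cast hα'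
  have hx : 0 ≤ x := (abs_nonneg _).trans h
  have h1 := neg_abs_le e.h
  have h1' := neg_abs_le e.h'
  refine ⟨by linarith, by nlinarith, by nlinarith⟩

private theorem poly_bd {x a k h : ℤ} (hx : 1 ≤ x) (ha0 : 0 ≤ a) (ha : a ≤ x) (hk : k ≤ 1 + x)
    (hh : h ≤ x) : a * k + h ≤ (x * 2) ^ 3 := by
  have h1 : a * k ≤ a * (1 + x) := mul_le_mul_of_nonneg_left hk ha0
  have h2 : a * (1 + x) ≤ x * (1 + x) := mul_le_mul_of_nonneg_right ha (by linarith)
  have h3 : x * (1 + x) + x ≤ (x * 2) ^ 3 := by nlinarith [mul_nonneg (by linarith : 0 ≤ x) (by linarith : 0 ≤ x - 1), mul_nonneg (mul_nonneg (by linarith : 0 ≤ x) (by linarith : 0 ≤ x)) (by linarith : 0 ≤ x - 1)]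
  linarith

private theorem prod_le_two_pow (l : List ℕ) : l.prod ≤ 2 ^ (l.map Nat.size).sum := by
  induction l with
  | nil => simp
  | cons a l ih =>
    rw [List.prod_cons, List.map_cons, List.sum_cons, pow_add]
    exact Nat.mul_le_mul (Nat.lt_size_self a).le ih

private theorem prod_fin_eq (l : List (Arc T)) (f : Arc T → ℕ) :
    ∏ k : Fin l.length, f (l.get k) = (l.map f).prod := by
  rw [← List.prod_ofFn]
  congr 1
  have h : List.map f (List.ofFn fun k : Fin l.length => l.get k)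
      = List.ofFn (f ∘ fun k : Fin l.length => l.get k) := List.map_ofFn
  rw [List.ofFn_get] at h
  exact h.symm

theorem norm_bnd [Fintype T] (G : LinGraph T) : G.norm.Bnd (2 ^ (G.size + 1)) := by
  classical
  have hpow : (2 : ℕ) ^ (G.size + 1) = 2 ^ G.size * 2 := pow_succ _ _
  have hle2 : (2 : ℕ) ^ G.size ≤ 2 ^ (G.size + 1) := by rw [hpow]; omega
  have hself : G.size < 2 ^ G.size := Nat.lt_two_pow_self
  have hx1 : 1 ≤ 2 ^ G.size := Nat.one_le_two_pow
  have hT : Fintype.card T ≤ G.size := by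
    unfold LinGraph.size
    have : Fintype.card T ≤ ∑ i, (1 + (G.p i).size) := by
      rw [Finset.sum_add_distrib]
      simp
    omega
  have hI : G.arcs.length ≤ G.size := by
    unfold LinGraph.size
    have : G.arcs.length ≤ (G.arcs.map fun e => 2 * (Fintype.card T).size + e.α.size + e.α'.size
      + (1 + e.h.natAbs.size) + (1 + e.h'.natAbs.size)).sum := by
      have h := List.length_le_sum_of_one_le (G.arcs.map fun e => 2 * (Fintype.card T).size
        + e.α.size + e.α'.size + (1 + e.h.natAbs.size) + (1 + e.h'.natAbs.size)) (by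
          intro i hi
          obtain ⟨e, _, rfl⟩ := List.mem_map.1 hi
          omega)
      simpa using h
    omega
  have hp : ∀ i, (G.p i).size ≤ G.size := by
    intro i
    unfold LinGraph.size
    have : 1 + (G.p i).size ≤ ∑ i, (1 + (G.p i).size) :=
      Finset.single_le_sum (f := fun i => 1 + (G.p i).size) (fun _ _ => Nat.zero_le _)
        (Finset.mem_univ i)
    omega
  have hmn : ∀ e ∈ G.arcs, e.m1 ≤ (2 ^ (G.size + 1)) ^ 3 ∧ e.n1 ≤ (2 ^ (G.size + 1)) ^ 3 := by
    intro e he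
    obtain ⟨p1, p2⟩ := G.arcs_pos e he
    have hs := arc_size_le G he
    have ha := (lt_two_pow_of_size_le (a := e.α) (N := G.size) (by omega)).le
    have ha' := (lt_two_pow_of_size_le (a := e.α') (N := G.size) (by omega)).le
    have hh := (lt_two_pow_of_size_le (a := e.h.natAbs) (N := G.size) (by omega)).le
    have hh' := (lt_two_pow_of_size_le (a := e.h'.natAbs) (N := G.size) (by omega)).le
    have ha2 : (e.α : ℤ) ≤ 2 ^ G.size := by exact_mod_cast ha
    have ha2' : (e.α' : ℤ) ≤ 2 ^ G.size := by exact_mod_cast ha'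
    have hh2 : |e.h| ≤ 2 ^ G.size := by
      rw [← Int.natCast_natAbs]; exact_mod_cast hh
    have hh2' : |e.h'| ≤ 2 ^ G.size := by
      rw [← Int.natCast_natAbs]; exact_mod_cast hh'
    have hk := k1_le e p1 p2 hh2 hh2'
    have hx : (1 : ℤ) ≤ 2 ^ G.size := by exact_mod_cast hx1
    constructor
    · have h1 := poly_bd hx (by positivity) ha2' hk ((le_abs_self _).trans hh2')
      have h2 := m1_cast e p1 p2
      rw [← h2] at h1
      rw [hpow]
      exact_mod_cast h1
    · have h1 := poly_bd hx (by positivity) ha2 hk ((le_abs_self _).trans hh2)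
      have h2 := n1_cast e p1 p2
      rw [← h2] at h1
      rw [hpow]
      exact_mod_cast h1
  have hsum : ∀ f : Arc T → ℕ, (∀ e : Arc T, f e ≤ 2 * (Fintype.card T).size + e.α.size
      + e.α'.size + (1 + e.h.natAbs.size) + (1 + e.h'.natAbs.size)) →
      (G.arcs.map f).sum ≤ G.size := by
    intro f hf
    unfold LinGraph.size
    have : (G.arcs.map f).sum ≤ (G.arcs.map fun e => 2 * (Fintype.card T).size + e.α.size
      + e.α'.size + (1 + e.h.natAbs.size) + (1 + e.h'.natAbs.size)).sum :=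
      List.sum_le_sum fun e _ => hf e
    omega
  refine ⟨?_, ?_, ?_, ?_, ?_, ?_, ?_, ?_, ?_, ?_⟩
  · rw [hpow]; omega
  · omega
  · rw [Fintype.card_fin]; omega
  · intro i
    exact (lt_two_pow_of_size_le (hp i)).le.trans hle2
  · intro k
    have hs := arc_size_le G (List.get_mem G.arcs k)
    exact (lt_two_pow_of_size_le (a := (G.arcs.get k).α) (by omega)).le.trans hle2
  · intro k
    have hs := arc_size_le G (List.get_mem G.arcs k)
    exact (lt_two_pow_of_size_le (a := (G.arcs.get k).α') (by omega)).le.trans hle2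
  · intro k
    exact (hmn _ (List.get_mem G.arcs k)).1
  · intro k
    exact (hmn _ (List.get_mem G.arcs k)).2
  · show ∏ k : Fin G.arcs.length, (G.arcs.get k).α ≤ _
    rw [prod_fin_eq G.arcs (fun e => e.α)]
    refine ((prod_le_two_pow _).trans (Nat.pow_le_pow_right (by norm_num) ?_)).trans hle2
    rw [List.map_map]
    exact hsum _ fun e => by simp only [Function.comp]; omega
  · show ∏ k : Fin G.arcs.length, (G.arcs.get k).α' ≤ _
    rw [prod_fin_eq G.arcs (fun e => e.α')]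
    refine ((prod_le_two_pow _).trans (Nat.pow_le_pow_right (by norm_num) ?_)).trans hle2
    rw [List.map_map]
    exact hsum _ fun e => by simp only [Function.comp]; omega

end Pool.Agent.LinSched
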