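import Pool.Agent.Lib.MP_b03ab8_lc.A.Mu

/-!
# Module A.PotC: potentials on the level edges; the potential `θ`

PROOF of `exists_c`. Let `E ≥ 1`, `ε = 1 / (E R ^ 2)`, `Λ_i = mu i / v i`. Apply `pot_add`
(`Γ = ℝ`, `a = 0`) to the graph with vertices `T × ZMod Y` and edges the subtype of the `q : VE`
with `Λ (s) = Λ (d)` (`s = G.s q.1.1`, `d = G.d q.1.1`), with weights
`w q = p - (Λ (s) + ε) D q`. Hypothesis: a nonempty simple closed walk `l` from `(i, x)`; by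
induction along the walk all its sources have `Λ = Λ_i`, so
`∑ w = ∑ p - (Λ_i + ε) ∑ D`. Viewed as a walk of `VE` (map by `Subtype.val`), it satisfies
`∑ p ≤ lam i ∑ D` (`IsLam.ge`) and `∑ D ≥ 1` (`closed_pos`); `lam i ≤ Λ_i` (`IsMu.ge`, `v i > 0`).
So `∑ w ≤ -ε ∑ D ≤ 0`. Result: `c ≥ 0`, `c (vs q) + w q ≤ c (vd q)`; and `c x` is the total
weight of a simple walk, which has at most `R ^ 4` edges (`simple_length`; the list of sources
is an initial part of a nodup list) of weight at most `R + (R ^ 8 + 1) R ^ 5 ≤ R ^ 14`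
(`Λ ≤ mu ≤ R ^ 8` (`mu_le`), `ε ≤ 1`, `D ≥ - R ^ 5`), so `c ≤ R ^ 18`.

PROOF of `exists_theta`. `pot_add` with `Γ = ℤ`, `a = 0`, all edges of `VE`, weights `- D q`:
closed walks have `∑ D ≥ 1`, so the sum of the weights is `≤ -1 ≤ 0`. `θ ≥ 0`, and `θ x` is a
sum of at most `R ^ 4` weights `≤ R ^ 5`.
-/

open Finset

namespace Pool.Agent.LinSched

variable {T ι : Type} [Fintype T] [Fintype ι] {G : NGraph T ι} {τ : T → ℕ → ℕ} {R : ℕ}
  {v : T → ℕ}

private theorem pc_walk_val {V κ : Type} {s d : κ → V} {p : κ → Prop} {u w : V}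
    {l : List {q : κ // p q}}
    (h : Walk (fun q : {q : κ // p q} => s q.1) (fun q : {q : κ // p q} => d q.1) u l w) :
    Walk s d u (l.map Subtype.val) w := by
  induction h with
  | nil v => exact Walk.nil v
  | cons e _ ih => exact Walk.cons e.1 ih

omit [Fintype T] in
private theorem pc_const (L : T → ℝ) {x y : T × ZMod G.Y}
    {l : List {q : G.VE v // L (G.s q.1.1) = L (G.d q.1.1)}}
    (h : Walk (fun q : {q : G.VE v // L (G.s q.1.1) = L (G.d q.1.1)} => G.vs v q.1)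
      (fun q => G.vd v q.1) x l y) : ∀ q ∈ l, L (G.s q.1.1.1) = L x.1 := by
  induction h with
  | nil v => exact fun q hq => absurd hq (by simp)
  | cons e _ ih =>
    intro q hq
    rcases List.mem_cons.1 hq with h | h
    · rw [h]
      rfl
    · rw [ih q h]
      exact e.2.symm

omit [Fintype T] in
private theorem pc_sum (L : T → ℝ) (ε c : ℝ)
    (l : List {q : G.VE v // L (G.s q.1.1) = L (G.d q.1.1)})
    (h : ∀ q ∈ l, L (G.s q.1.1.1) = c) :
    (l.map (fun q => (G.vp v q.1 : ℝ) - (L (G.s q.1.1.1) + ε) * (G.vD v q.1 : ℤ))).sum =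
      (((l.map Subtype.val).map (G.vp v)).sum : ℕ) -
        (c + ε) * (((l.map Subtype.val).map (G.vD v)).sum : ℤ) := by
  induction l with
  | nil => simp
  | cons q l ih =>
    have h1 := h q (by simp)
    have h2 := ih fun q hq => h q (List.mem_cons_of_mem _ hq)
    simp only [List.map_cons, List.sum_cons, Nat.cast_add, Int.cast_add]
    rw [h2, h1]
    ring

theorem exists_c (hG : G.Ok) (hτ : G.IsTau τ) (hR : G.Bnd R) (hv : G.IsPot R v) {lam : T → ℝ}
    (hl : G.IsLam v lam) {mu : T → ℝ} (hm : G.IsMu v lam mu) (E : ℕ) (hE : 1 ≤ E) :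
    ∃ c : T × ZMod G.Y → ℝ, (∀ x, 0 ≤ c x ∧ c x ≤ (R : ℝ) ^ 18) ∧
      ∀ q : G.VE v, mu (G.s q.1.1) / v (G.s q.1.1) = mu (G.d q.1.1) / v (G.d q.1.1) →
        c (G.vs v q) + G.vp v q -
          (mu (G.s q.1.1) / v (G.s q.1.1) + 1 / (E * (R : ℝ) ^ 2)) * (G.vD v q : ℤ) ≤
        c (G.vd v q) := by
  classical
  have hY : NeZero G.Y := ⟨(Y_pos hG).ne'⟩
  have hfin : Finite (G.VE v) := finite_VE hG v
  have hR2 : (2 : ℝ) ≤ R := by exact_mod_cast hR.two_le
  have hE1 : (1 : ℝ) ≤ E := by exact_mod_cast hE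
  obtain ⟨ε, hε⟩ : ∃ ε : ℝ, ε = 1 / (E * (R : ℝ) ^ 2) := ⟨_, rfl⟩
  have hε0 : 0 < ε := by rw [hε]; positivity
  have hε1 : ε ≤ 1 := by
    rw [hε, div_le_one (by positivity)]
    nlinarith [one_le_pow₀ (n := 2) (by linarith : (1 : ℝ) ≤ R)]
  obtain ⟨L, hL⟩ : ∃ L : T → ℝ, ∀ i, L i = mu i / v i := ⟨fun i => mu i / v i, fun _ => rfl⟩
  have hvpos : ∀ i, (1 : ℝ) ≤ v i := fun i => by exact_mod_cast hv.pos i
  have hL0 : ∀ i, 0 ≤ L i := fun i => by
    rw [hL]
    exact div_nonneg (zero_le_one.trans (mu_ge_one hl hm i)) (zero_le_one.trans (hvpos i))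
  have hL8 : ∀ i, L i ≤ (R : ℝ) ^ 8 := fun i => by
    rw [hL, div_le_iff₀ (by linarith [hvpos i])]
    have h1 := mu_le hG hτ hR hv hl hm i
    have h2 : (0 : ℝ) ≤ (R : ℝ) ^ 8 := by positivity
    nlinarith [hvpos i]
  have hlam : ∀ i, lam i ≤ L i := fun i => by
    rw [hL, le_div_iff₀ (by linarith [hvpos i])]
    exact hm.ge i
  have hw14 : ∀ q : G.VE v, (G.vp v q : ℝ) - (L (G.s q.1.1) + ε) * (G.vD v q : ℤ) ≤
      (R : ℝ) ^ 14 := by
    intro q
    have h1 : (G.vp v q : ℝ) ≤ R := by exact_mod_cast hR.p_le (G.s q.1.1)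
    have h2 : (-(R : ℝ) ^ 5) ≤ (G.vD v q : ℤ) := by exact_mod_cast D_ge hR hv q.1.1
    have h3 : L (G.s q.1.1) + ε ≤ (R : ℝ) ^ 8 + 1 := by linarith [hL8 (G.s q.1.1)]
    have h4 : 0 ≤ L (G.s q.1.1) + ε := by linarith [hL0 (G.s q.1.1)]
    have h5 : (L (G.s q.1.1) + ε) * (-((G.vD v q : ℤ) : ℝ)) ≤ ((R : ℝ) ^ 8 + 1) * (R : ℝ) ^ 5 := by
      calc (L (G.s q.1.1) + ε) * (-((G.vD v q : ℤ) : ℝ))
          ≤ (L (G.s q.1.1) + ε) * (R : ℝ) ^ 5 := mul_le_mul_of_nonneg_left (by linarith) h4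
        _ ≤ _ := mul_le_mul_of_nonneg_right h3 (by positivity)
    have h6 : (R : ℝ) ≤ (R : ℝ) ^ 5 := by
      have := pow_le_pow_right₀ (by linarith : (1 : ℝ) ≤ R) (show 1 ≤ 5 by norm_num)
      simpa using this
    have h7 : (R : ℝ) ^ 5 ≤ (R : ℝ) ^ 12 :=
      pow_le_pow_right₀ (by linarith : (1 : ℝ) ≤ R) (by norm_num)
    have h8 : 2 * (R : ℝ) ^ 12 ≤ (R : ℝ) ^ 13 := by
      have : (R : ℝ) ^ 13 = R * (R : ℝ) ^ 12 := by ring
      rw [this]
      exact mul_le_mul_of_nonneg_right hR2 (by positivity)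
    have h9 : 2 * (R : ℝ) ^ 13 ≤ (R : ℝ) ^ 14 := by
      have : (R : ℝ) ^ 14 = R * (R : ℝ) ^ 13 := by ring
      rw [this]
      exact mul_le_mul_of_nonneg_right hR2 (by positivity)
    have h10 : ((R : ℝ) ^ 8 + 1) * (R : ℝ) ^ 5 = (R : ℝ) ^ 13 + (R : ℝ) ^ 5 := by ring
    linarith
  obtain ⟨c, h0, h1, h2⟩ := pot_add (V := T × ZMod G.Y)
    (ι := {q : G.VE v // L (G.s q.1.1) = L (G.d q.1.1)}) (Γ := ℝ)
    (fun q => G.vs v q.1) (fun q => G.vd v q.1)
    (fun q => (G.vp v q.1 : ℝ) - (L (G.s q.1.1.1) + ε) * (G.vD v q.1 : ℤ)) (fun _ => 0)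
    (by
      intro x l hw hne hnd
      rw [pc_sum L ε (L x.1) l (pc_const L hw)]
      have hw' := pc_walk_val (s := G.vs v) (d := G.vd v) hw
      have hne' : l.map Subtype.val ≠ [] := fun h => hne (List.map_eq_nil_iff.1 h)
      have hnd' : ((l.map Subtype.val).map (G.vs v)).Nodup := by
        rw [List.map_map]
        exact hnd
      have h3 := hl.ge x.1 x.2 _ hw' hne' hnd'
      have h4 := closed_pos hG hτ hR hv x _ hw' hne'
      have h5 : (1 : ℝ) ≤ ((((l.map Subtype.val).map (G.vD v)).sum : ℤ) : ℝ) := by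
        exact_mod_cast h4
      have h6 := hlam x.1
      nlinarith)
  refine ⟨c, fun x => ⟨h0 x, ?_⟩, fun q hq => ?_⟩
  · obtain ⟨u, l, hw, hnd, hc⟩ := h2 x
    have hlen : l.length ≤ R ^ 4 := by
      have h3 : ((l.map Subtype.val).map (G.vs v)).Nodup := by
        rw [List.map_map]
        exact List.Nodup.of_append_left hnd
      have h4 := simple_length hG hR h3
      rwa [List.length_map] at h4
    rw [hc, zero_add]
    refine (List.sum_le_card_nsmul _ ((R : ℝ) ^ 14) ?_).trans ?_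
    · intro y hy
      obtain ⟨q, -, rfl⟩ := List.mem_map.1 hy
      exact hw14 q.1
    · rw [List.length_map, nsmul_eq_mul]
      have h3 : (l.length : ℝ) ≤ (R : ℝ) ^ 4 := by exact_mod_cast hlen
      calc (l.length : ℝ) * (R : ℝ) ^ 14 ≤ (R : ℝ) ^ 4 * (R : ℝ) ^ 14 :=
            mul_le_mul_of_nonneg_right h3 (by positivity)
        _ = (R : ℝ) ^ 18 := by ring
  · have h3 := h1 ⟨q, by rw [hL, hL]; exact hq⟩
    simp only at h3
    rw [← hε, ← hL]
    linarith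

theorem exists_theta (hG : G.Ok) (hτ : G.IsTau τ) (hR : G.Bnd R) (hv : G.IsPot R v) :
    ∃ θ : T × ZMod G.Y → ℤ, (∀ x, 0 ≤ θ x ∧ θ x ≤ (R : ℤ) ^ 9) ∧
      ∀ q : G.VE v, θ (G.vs v q) - G.vD v q ≤ θ (G.vd v q) := by
  classical
  have hY : NeZero G.Y := ⟨(Y_pos hG).ne'⟩
  have hfin : Finite (G.VE v) := finite_VE hG v
  have hsum : ∀ l : List (G.VE v), (l.map (fun q => -G.vD v q)).sum = -(l.map (G.vD v)).sum := by
    intro l
    induction l with
    | nil => simp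
    | cons q l ih =>
      simp only [List.map_cons, List.sum_cons]
      rw [ih]
      ring
  obtain ⟨c, h0, h1, h2⟩ := pot_add (V := T × ZMod G.Y) (ι := G.VE v) (Γ := ℤ)
    (G.vs v) (G.vd v) (fun q => -G.vD v q) (fun _ => 0)
    (by
      intro x l hw hne _
      rw [hsum]
      have := closed_pos hG hτ hR hv x l hw hne
      omega)
  refine ⟨c, fun x => ⟨h0 x, ?_⟩, fun q => ?_⟩
  · obtain ⟨u, l, hw, hnd, hc⟩ := h2 x
    have hlen : l.length ≤ R ^ 4 := simple_length hG hR (List.Nodup.of_append_left hnd)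
    have h3 := sum_vD_ge hR hv l
    rw [hc, hsum, zero_add]
    have h4 : (l.length : ℤ) ≤ (R : ℤ) ^ 4 := by exact_mod_cast hlen
    calc -(l.map (G.vD v)).sum ≤ l.length * (R : ℤ) ^ 5 := by linarith
      _ ≤ (R : ℤ) ^ 4 * (R : ℤ) ^ 5 := mul_le_mul_of_nonneg_right h4 (by positivity)
      _ = (R : ℤ) ^ 9 := by ring
  · have h3 := h1 q
    linarith

end Pool.Agent.LinSched
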