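import Pool.Agent.Lib.MP_b03ab8_lc.A.Small
import Pool.Agent.Lib.MP_b03ab8_lc.A.PotC

/-!
# Module A.Upper: the upper bound

PROOF. Let `ε = 1 / (E R ^ 2) ≤ 1`, `Λ_i = mu i / v i`, `c` from `exists_c`, `θ` from
`exists_theta`, `z = E R ^ 46` (natural number, `≥ R ^ 14`), `K = R ^ 2 z = E R ^ 48`,
`U j n = (Λ_j + ε) (v j n) + c (j, class of v j n) ≥ 0`. Note `Λ_j (v j n) = mu j n`.
Claim: `τ j n ≤ U j n + K` for all `j`, `n ≥ 1`. It implies the theorem: `ε v j ≤ 1 / E`
(`v j ≤ R ^ 2`), `c ≤ R ^ 18`, `R ^ 18 + E R ^ 48 ≤ E R ^ 50`.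

Strong induction on `τ j n`. If `τ j n = 0`: clear. If `yy j n ≤ z`: `small_tau`. Let
`yy j n > z`, so `v j n > z - R ^ 9`. By `IsTau.att` there are `e`, `t`, with `j = d e`,
`n = n_e + a t`; let `i = s e`, `m' = m_e + a' t`: `τ j n = τ i m' + p i`. Let `zi = v i m'`,
`zj = v j n`.
(a) `e` tight (`v i a' = v j a`) and `Λ_i = Λ_j`: `q = (e, class of zi) ∈ VE`, `zj = zi + D`, and
  by `exists_c` `U j n = (Λ + ε) (zi + D) + c (vd q) ≥ (Λ + ε) zi + c (vs q) + p = U i m' + p`;
  use the induction hypothesis for `(i, m')`.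
(b) otherwise, `yy i m' ≤ z`: `τ i m' ≤ K` (`small_tau`), `τ j n ≤ K + R`, and
  `U j n ≥ mu j n ≥ n ≥ zj / R ^ 2 ≥ (z - R ^ 9) / R ^ 2 ≥ R` (`mu_ge_one`, `v j ≤ R ^ 2`).
(c) otherwise, `yy i m' > z`, so `zi > z - R ^ 9 = E R ^ 46 - R ^ 9`; show
  `U j n ≥ U i m' + p i` and use the induction hypothesis. `U i m' + p i ≤ (Λ_i + ε) zi + R ^ 18
  + R`.
  (c1) `e` tight: `mu i a' ≤ mu j a` and `v i a' = v j a` give `Λ_i ≤ Λ_j`, so `Λ_i < Λ_j` and
  `Λ_j ≥ Λ_i + 1 / R ^ 24` (`mu_gap`). `U j n ≥ (Λ_j + ε) (zi + D) ≥ (Λ_j + ε) zi -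
  (R ^ 8 + 1) R ^ 5 ≥ (Λ_i + ε) zi + zi / R ^ 24 - R ^ 13 - R ^ 5` (`Λ_j ≤ mu j ≤ R ^ 8`,
  `D ≥ - R ^ 5`), and `zi / R ^ 24 ≥ R ^ 19 ≥ R ^ 18 + R ^ 13 + R ^ 5 + R`.
  (c2) `e` not tight: `v j a ≥ v i a' + 1`. `U j n ≥ mu j n + ε zj`,
  `mu j n ≥ mu j a t ≥ mu i a' t = Λ_i (zi - v i m_e) ≥ Λ_i zi - R ^ 8 R ^ 5` and
  `zj ≥ v j a t ≥ v i a' t + t = zi - v i m_e + t ≥ zi - R ^ 5 + t`. So
  `U j n ≥ (Λ_i + ε) zi - R ^ 13 - R ^ 5 + ε t`. From `zi ≤ R ^ 5 + R ^ 3 t` we get
  `t ≥ E R ^ 21`, so `ε t ≥ R ^ 19 ≥ R ^ 18 + R ^ 13 + R ^ 5 + R`.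
-/

open Finset

namespace Pool.Agent.LinSched

variable {T ι : Type} [Fintype T] [Fintype ι] {G : NGraph T ι} {τ : T → ℕ → ℕ} {R : ℕ}
  {v : T → ℕ}

/-- The numerical inequalities. -/
private theorem num_ineq {r : ℝ} (hr : 2 ≤ r) : r ^ 18 + r ^ 13 + r ^ 5 + r ≤ r ^ 19 := by
  have h1 : (1 : ℝ) ≤ r := by linarith
  have h2 : r ^ 5 ≤ r ^ 13 := pow_le_pow_right₀ h1 (by norm_num)
  have h3 : r ≤ r ^ 13 := by
    calc r = r ^ 1 := (pow_one r).symm
      _ ≤ r ^ 13 := pow_le_pow_right₀ h1 (by norm_num)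
  have h4 : (2 : ℝ) ^ 5 ≤ r ^ 5 := pow_le_pow_left₀ (by norm_num) hr 5
  have h5 : (0 : ℝ) < r ^ 13 := by positivity
  have h6 : (0 : ℝ) < r ^ 18 := by positivity
  have h7 : r ^ 18 = r ^ 5 * r ^ 13 := by ring
  have h8 : r ^ 19 = r * r ^ 18 := by ring
  have h9 : 32 * r ^ 13 ≤ r ^ 18 := by
    rw [h7]
    norm_num at h4
    nlinarith
  have h10 : 2 * r ^ 18 ≤ r ^ 19 := by
    rw [h8]
    nlinarith
  linarith

private theorem num_big {r E : ℝ} (hr : 2 ≤ r) (hE : 1 ≤ E) : E * r ^ 43 + r ^ 9 + r ^ 5 ≤ E * r ^ 46 := by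
  have h1 : (1 : ℝ) ≤ r := by linarith
  have h2 : r ^ 9 ≤ r ^ 43 := pow_le_pow_right₀ h1 (by norm_num)
  have h3 : r ^ 5 ≤ r ^ 43 := pow_le_pow_right₀ h1 (by norm_num)
  have h4 : (2 : ℝ) ^ 3 ≤ r ^ 3 := pow_le_pow_left₀ (by norm_num) hr 3
  have h5 : (0 : ℝ) < r ^ 43 := by positivity
  have h6 : r ^ 43 ≤ E * r ^ 43 := by nlinarith
  have h7 : E * r ^ 46 = r ^ 3 * (E * r ^ 43) := by ring
  rw [h7]
  norm_num at h4
  nlinarith

private theorem c1_ineq {r Li Lj ε Z D : ℝ} (hr : 2 ≤ r) (hgap : Li + 1 / r ^ 24 ≤ Lj) (hLj : Lj ≤ r ^ 8)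
    (hLj0 : 0 ≤ Lj) (hε0 : 0 ≤ ε) (hε1 : ε ≤ 1) (hD : -(r ^ 5) ≤ D) (hZ : r ^ 43 ≤ Z) :
    (Li + ε) * Z + r ^ 18 + r ≤ (Lj + ε) * (Z + D) := by
  have hr5 : (0 : ℝ) < r ^ 5 := by positivity
  have hZ0 : 0 ≤ Z := le_trans (by positivity) hZ
  have hnum := num_ineq hr
  have h1 : (Li + 1 / r ^ 24) * Z ≤ Lj * Z := mul_le_mul_of_nonneg_right hgap hZ0
  have h2 : (Lj + ε) * (-(r ^ 5)) ≤ (Lj + ε) * D := mul_le_mul_of_nonneg_left hD (by linarith)
  have h3 : (Lj + ε) * r ^ 5 ≤ (r ^ 8 + 1) * r ^ 5 :=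
    mul_le_mul_of_nonneg_right (by linarith) hr5.le
  have h4 : r ^ 19 ≤ 1 / r ^ 24 * Z := by
    have h5 : 1 / r ^ 24 * Z = Z / r ^ 24 := by ring
    rw [h5, le_div_iff₀ (by positivity)]
    have h6 : r ^ 19 * r ^ 24 = r ^ 43 := by ring
    rw [h6]
    exact hZ
  have h5 : (r ^ 8 + 1) * r ^ 5 = r ^ 13 + r ^ 5 := by ring
  have h6 : (Lj + ε) * (Z + D) = Lj * Z + ε * Z + (Lj + ε) * D := by ring
  have h7 : (Li + ε) * Z = (Li + 1 / r ^ 24) * Z + ε * Z - 1 / r ^ 24 * Z := by ring
  have h8 : (Lj + ε) * (-(r ^ 5)) = -((Lj + ε) * r ^ 5) := by ring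
  rw [h6, h7]
  linarith

private theorem c2_ineq {r Li Lj ε Z W t : ℝ} (hr : 2 ≤ r) (hε0 : 0 ≤ ε) (hε1 : ε ≤ 1)
    (hL : Li * Z - r ^ 13 ≤ Lj * W) (hW : Z - r ^ 5 + t ≤ W) (ht : r ^ 19 ≤ ε * t) :
    (Li + ε) * Z + r ^ 18 + r ≤ (Lj + ε) * W := by
  have hr5 : (0 : ℝ) < r ^ 5 := by positivity
  have hnum := num_ineq hr
  have h1 : ε * (Z - r ^ 5 + t) ≤ ε * W := mul_le_mul_of_nonneg_left hW hε0
  have h2 : ε * r ^ 5 ≤ 1 * r ^ 5 := mul_le_mul_of_nonneg_right hε1 hr5.le
  have h3 : ε * (Z - r ^ 5 + t) = ε * Z - ε * r ^ 5 + ε * t := by ring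
  have h4 : (Li + ε) * Z = Li * Z + ε * Z := by ring
  have h5 : (Lj + ε) * W = Lj * W + ε * W := by ring
  rw [h4, h5]
  linarith

theorem upper (hG : G.Ok) (hτ : G.IsTau τ) (hR : G.Bnd R) (hv : G.IsPot R v) {lam : T → ℝ}
    (hl : G.IsLam v lam) {mu : T → ℝ} (hm : G.IsMu v lam mu) (E : ℕ) (hE : 1 ≤ E) (j : T)
    (n : ℕ) (hn : 1 ≤ n) :
    (τ j n : ℝ) ≤ (mu j + 1 / E) * n + E * (R : ℝ) ^ 50 := by
  obtain ⟨c, hc0, hc⟩ := exists_c hG hτ hR hv hl hm E hE
  obtain ⟨θ, hθ0, hθ⟩ := exists_theta hG hτ hR hv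
  have hr : (2 : ℝ) ≤ R := by exact_mod_cast hR.two_le
  have hr1 : (1 : ℝ) ≤ R := by linarith
  have hr0 : (0 : ℝ) < R := by linarith
  have hE1 : (1 : ℝ) ≤ E := by exact_mod_cast hE
  have hE0 : (0 : ℝ) < E := by linarith
  set r : ℝ := (R : ℝ) with hrdef
  set ε : ℝ := 1 / (E * r ^ 2) with hε
  have hεpos : 0 < ε := by positivity
  have hε1 : ε ≤ 1 := by
    rw [hε, div_le_one (by positivity)]
    have h1 : (1 : ℝ) ≤ r ^ 2 := one_le_pow₀ hr1
    nlinarith
  set z : ℕ := E * R ^ 46 with hz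
  have hzr : (z : ℝ) = E * r ^ 46 := by rw [hz]; push_cast; rfl
  have hz14 : R ^ 14 ≤ z := by
    rw [hz]
    calc R ^ 14 ≤ R ^ 46 := Nat.pow_le_pow_right (by have := hR.two_le; omega) (by norm_num)
      _ = 1 * R ^ 46 := (one_mul _).symm
      _ ≤ E * R ^ 46 := Nat.mul_le_mul_right _ hE
  have hvpos : ∀ i, (0 : ℝ) < v i := fun i => by exact_mod_cast hv.pos i
  have hv1 : ∀ i, (1 : ℝ) ≤ v i := fun i => by exact_mod_cast hv.pos i
  have hvle : ∀ i, (v i : ℝ) ≤ r ^ 2 := fun i => by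
    rw [hrdef]
    exact_mod_cast hv.bd i
  have hmu1 : ∀ i, 1 ≤ mu i := mu_ge_one hl hm
  have hmule : ∀ i, mu i ≤ r ^ 8 := mu_le hG hτ hR hv hl hm
  have hL0 : ∀ i, 0 ≤ mu i / v i := fun i => div_nonneg (by linarith [hmu1 i]) (hvpos i).le
  have hLle : ∀ i, mu i / v i ≤ r ^ 8 := fun i => by
    rw [div_le_iff₀ (hvpos i)]
    have h1 : (0 : ℝ) < r ^ 8 := by positivity
    nlinarith [hmule i, hv1 i]
  have hLv : ∀ i, mu i / v i * v i = mu i := fun i => div_mul_cancel₀ _ (hvpos i).ne'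
  set U : T → ℕ → ℝ := fun j n => (mu j / v j + ε) * ((v j * n : ℕ) : ℝ) +
    c (j, ((v j * n : ℕ) : ZMod G.Y)) with hU
  have hU0 : ∀ j n, 0 ≤ U j n := fun j n => by
    have h1 := (hc0 (j, ((v j * n : ℕ) : ZMod G.Y))).1
    have h2 := hL0 j
    have h3 : (0 : ℝ) ≤ ((v j * n : ℕ) : ℝ) := Nat.cast_nonneg _
    simp only [hU]
    positivity
  have claim : ∀ k : ℕ, ∀ (j : T) (n : ℕ), 1 ≤ n → τ j n = k →
      (τ j n : ℝ) ≤ U j n + r ^ 2 * z := by
    intro k
    induction k using Nat.strong_induction_on with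
    | _ k ih =>
      intro j n hn hk
      by_cases hy : G.yy v θ j n ≤ z
      · have h1 := small_tau hG hτ hR hv hθ0 hθ z hz14 j n hn hy
        have h2 : (τ j n : ℝ) ≤ r ^ 2 * z := by
          rw [hrdef]
          exact_mod_cast h1
        linarith [hU0 j n]
      push Not at hy
      rcases hτ.att j n hn with h0 | ⟨e, t, rfl, hne, hatt⟩
      · rw [h0, Nat.cast_zero]
        have h1 := hU0 j n
        positivity
      set i := G.s e with hi
      set m' := G.m e + G.a' e * t with hm'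
      have hm1 : 1 ≤ m' := by have := hG.m_pos e; omega
      have hp := hG.p_pos i
      have hpr : (G.p i : ℝ) ≤ r := by
        rw [hrdef]
        exact_mod_cast hR.p_le i
      have hlt : τ i m' < k := by omega
      have hattr : (τ (G.d e) n : ℝ) = τ i m' + G.p i := by exact_mod_cast hatt
      set Z : ℝ := ((v i * m' : ℕ) : ℝ) with hZ
      set W : ℝ := ((v (G.d e) * n : ℕ) : ℝ) with hW
      have hZW : W = Z + (G.D v e : ℤ) ∨ v i * G.a' e + 1 ≤ v (G.d e) * G.a e := by
        rcases (hv.le e).eq_or_lt with h1 | h1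
        · left
          have h2 : ((v (G.d e) * n : ℕ) : ℤ) = ((v i * m' : ℕ) : ℤ) + G.D v e := by
            unfold NGraph.D
            have ht' : (v i : ℤ) * G.a' e = v (G.d e) * G.a e := by exact_mod_cast h1
            rw [hne, hm']
            push_cast
            linear_combination (-(t : ℤ)) * ht'
          have h3 := congrArg (Int.cast : ℤ → ℝ) h2
          rw [Int.cast_add, Int.cast_natCast, Int.cast_natCast] at h3
          exact h3
        · right
          exact h1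
      have hW1 : (z : ℝ) - r ^ 9 < W := by
        have h1 := (hθ0 (G.d e, ((v (G.d e) * n : ℕ) : ZMod G.Y))).2
        unfold NGraph.yy at hy
        have h2 : (z : ℤ) - (R : ℤ) ^ 9 < ((v (G.d e) * n : ℕ) : ℤ) := by linarith
        have h3 : ((z : ℤ) : ℝ) - ((R : ℤ) : ℝ) ^ 9 < (((v (G.d e) * n : ℕ) : ℤ) : ℝ) := by
          exact_mod_cast h2
        rw [Int.cast_natCast, Int.cast_natCast, Int.cast_natCast] at h3
        exact h3
      have hUW : (mu (G.d e) / v (G.d e) + ε) * W ≤ U (G.d e) n := by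
        have h1 := (hc0 (G.d e, ((v (G.d e) * n : ℕ) : ZMod G.Y))).1
        simp only [hU]
        linarith
      have hUZ : U i m' ≤ (mu i / v i + ε) * Z + r ^ 18 := by
        have h1 := (hc0 (i, ((v i * m' : ℕ) : ZMod G.Y))).2
        simp only [hU]
        linarith
      have hZ0 : 0 ≤ Z := Nat.cast_nonneg _
      have hW0 : 0 ≤ W := Nat.cast_nonneg _
      -- case (a)
      by_cases ha : v i * G.a' e = v (G.d e) * G.a e ∧ mu i / v i = mu (G.d e) / v (G.d e)
      · obtain ⟨ha1, ha2⟩ := ha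
        set q : G.VE v := ⟨(e, ((v (G.s e) * (G.m e + G.a' e * t) : ℕ) : ZMod G.Y)), ha1, t, rfl⟩
          with hq
        have h1 := hc q ha2
        have hWe : ((v (G.d e) * n : ℕ) : ℤ) = ((v i * m' : ℕ) : ℤ) + G.D v e := by
          unfold NGraph.D
          have ht' : (v i : ℤ) * G.a' e = v (G.d e) * G.a e := by exact_mod_cast ha1
          rw [hne, hm']
          push_cast
          linear_combination (-(t : ℤ)) * ht'
        have hcl : ((v (G.d e) * n : ℕ) : ZMod G.Y)
            = ((v i * m' : ℕ) : ZMod G.Y) + ((G.D v e : ℤ) : ZMod G.Y) := by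
          have := congrArg (Int.cast : ℤ → ZMod G.Y) hWe
          rw [Int.cast_add, Int.cast_natCast, Int.cast_natCast] at this
          exact this
        have hWr : W = Z + (G.D v e : ℤ) := by
          have h3 := congrArg (Int.cast : ℤ → ℝ) hWe
          rw [Int.cast_add, Int.cast_natCast, Int.cast_natCast] at h3
          exact h3
        have e1 : G.vs v q = (i, ((v i * m' : ℕ) : ZMod G.Y)) := rfl
        have e2 : G.vd v q = (G.d e, ((v (G.d e) * n : ℕ) : ZMod G.Y)) := by
          rw [hcl]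
          rfl
        have e3 : G.vD v q = G.D v e := rfl
        have e4 : G.vp v q = G.p i := rfl
        have e5 : G.s q.1.1 = i := rfl
        rw [e1, e2, e3, e4, e5] at h1
        have h2 := ih (τ i m') hlt i m' hm1 rfl
        have h3 : U i m' + G.p i ≤ U (G.d e) n := by
          have h4 : U i m' = (mu i / v i + ε) * Z + c (i, ((v i * m' : ℕ) : ZMod G.Y)) := rfl
          have h5 : U (G.d e) n = (mu (G.d e) / v (G.d e) + ε) * W +
            c (G.d e, ((v (G.d e) * n : ℕ) : ZMod G.Y)) := rfl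
          rw [h4, h5, ← ha2, hWr]
          linarith
        rw [hattr]
        linarith
      -- case (b)
      by_cases hyi : G.yy v θ i m' ≤ z
      · have h1 := small_tau hG hτ hR hv hθ0 hθ z hz14 i m' hm1 hyi
        have h2 : (τ i m' : ℝ) ≤ r ^ 2 * z := by
          rw [hrdef]
          exact_mod_cast h1
        have h3 : r ≤ U (G.d e) n := by
          have h4 : W / r ^ 2 ≤ (mu (G.d e) / v (G.d e) + ε) * W := by
            have h5 : 1 / r ^ 2 ≤ mu (G.d e) / v (G.d e) := by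
              rw [div_le_div_iff₀ (by positivity) (hvpos _), one_mul]
              exact (hvle _).trans (le_mul_of_one_le_left (by positivity) (hmu1 _))
            have h6 : W / r ^ 2 = 1 / r ^ 2 * W := by ring
            rw [h6]
            apply mul_le_mul_of_nonneg_right _ hW0
            linarith
          have h7 : r ≤ W / r ^ 2 := by
            rw [le_div_iff₀ (by positivity)]
            have h8 := num_big hr hE1
            have h9 : r * r ^ 2 ≤ E * r ^ 43 := by
              have h10 : r * r ^ 2 = r ^ 3 := by ring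
              rw [h10]
              have h11 : r ^ 3 ≤ r ^ 43 := pow_le_pow_right₀ hr1 (by norm_num)
              exact h11.trans (le_mul_of_one_le_left (by positivity) hE1)
            have h13 : (0 : ℝ) < r ^ 5 := by positivity
            rw [hzr] at hW1
            linarith
          linarith
        rw [hattr]
        linarith
      push Not at hyi
      have hZ1 : (z : ℝ) - r ^ 9 < Z := by
        have h1 := (hθ0 (i, ((v i * m' : ℕ) : ZMod G.Y))).2
        unfold NGraph.yy at hyi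
        have h2 : (z : ℤ) - (R : ℤ) ^ 9 < ((v i * m' : ℕ) : ℤ) := by linarith
        have h3 : ((z : ℤ) : ℝ) - ((R : ℤ) : ℝ) ^ 9 < (((v i * m' : ℕ) : ℤ) : ℝ) := by
          exact_mod_cast h2
        rw [Int.cast_natCast, Int.cast_natCast, Int.cast_natCast] at h3
        exact h3
      rw [hzr] at hZ1
      have hbig := num_big hr hE1
      have hnum := num_ineq hr
      have hr5 : (0 : ℝ) < r ^ 5 := by positivity
      have h2 := ih (τ i m') hlt i m' hm1 rfl
      have key : U i m' + G.p i ≤ U (G.d e) n := by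
        by_cases htt : v i * G.a' e = v (G.d e) * G.a e
        · -- (c1)
          have hWr : W = Z + (G.D v e : ℤ) := by
            rcases hZW with h3 | h3
            · exact h3
            · omega
          have hne' : mu i / v i ≠ mu (G.d e) / v (G.d e) := fun h3 => ha ⟨htt, h3⟩
          have httr : (v i : ℝ) * G.a' e = v (G.d e) * G.a e := by exact_mod_cast htt
          have hle : mu i / v i ≤ mu (G.d e) / v (G.d e) := by
            rw [div_le_div_iff₀ (hvpos _) (hvpos _)]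
            have h3 := hm.le e
            have ha' : (0 : ℝ) < G.a' e := by exact_mod_cast hG.a'_pos e
            have hap : (0 : ℝ) < G.a e := by exact_mod_cast hG.a_pos e
            have h4 : mu i * v (G.d e) * (G.a e) ≤ mu (G.d e) * v i * G.a e := by
              have h5 : mu i * v (G.d e) * G.a e = mu i * G.a' e * v i := by
                linear_combination (-(mu i)) * httr
              rw [h5]
              have h6 : mu i * G.a' e * v i ≤ mu (G.d e) * G.a e * v i :=
                mul_le_mul_of_nonneg_right h3 (hvpos i).le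
              linarith
            exact le_of_mul_le_mul_right h4 hap
          have hgap := mu_gap hG hτ hR hv hl hm i (G.d e) (lt_of_le_of_ne hle hne')
          have hD : -(r ^ 5) ≤ ((G.D v e : ℤ) : ℝ) := by
            have h3 := D_ge hR hv e
            have h4 : ((-(R : ℤ) ^ 5 : ℤ) : ℝ) ≤ ((G.D v e : ℤ) : ℝ) := by exact_mod_cast h3
            push_cast at h4
            exact h4
          have hZ43 : r ^ 43 ≤ Z := by
            have h3 : r ^ 43 ≤ E * r ^ 43 := le_mul_of_one_le_left (by positivity) hE1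
            linarith
          have h4 := c1_ineq hr hgap (hLle _) (hL0 _) hεpos.le hε1 hD hZ43
          rw [hWr] at hUW
          linarith
        · -- (c2)
          have hnt : v i * G.a' e + 1 ≤ v (G.d e) * G.a e :=
            Nat.lt_of_le_of_ne (hv.le e) htt
          have hntr : (v i : ℝ) * G.a' e + 1 ≤ v (G.d e) * G.a e := by exact_mod_cast hnt
          have ht0 : (0 : ℝ) ≤ t := Nat.cast_nonneg _
          have hvm : (v i : ℝ) * G.m e ≤ r ^ 5 := by
            rw [hrdef]
            exact_mod_cast vm_le hR hv e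
          have hZe : Z = v i * G.m e + v i * G.a' e * t := by
            rw [hZ, hm']
            push_cast
            ring
          have hWe : W = v (G.d e) * G.n e + v (G.d e) * G.a e * t := by
            rw [hW, hne]
            push_cast
            ring
          have hn0 : (0 : ℝ) ≤ v (G.d e) * G.n e := by positivity
          have hW2 : Z - r ^ 5 + t ≤ W := by
            have h3 : ((v i : ℝ) * G.a' e + 1) * t ≤ v (G.d e) * G.a e * t :=
              mul_le_mul_of_nonneg_right hntr ht0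
            rw [hWe, hZe]
            linarith
          have hmu0 : 0 ≤ mu (G.d e) := by linarith [hmu1 (G.d e)]
          have hLW : mu i / v i * Z - r ^ 13 ≤ mu (G.d e) / v (G.d e) * W := by
            have h3 := hm.le e
            have h4 : mu i * G.a' e * t ≤ mu (G.d e) * G.a e * t :=
              mul_le_mul_of_nonneg_right h3 ht0
            have h5 : mu (G.d e) / v (G.d e) * W = mu (G.d e) * G.n e + mu (G.d e) * G.a e * t := by
              rw [hWe]
              have h6 := hLv (G.d e)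
              linear_combination (G.n e + G.a e * t : ℝ) * h6
            have h7 : mu i / v i * Z = mu i / v i * (v i * G.m e) + mu i * G.a' e * t := by
              rw [hZe]
              have h6 := hLv i
              linear_combination (G.a' e * t : ℝ) * h6
            have h8 : mu i / v i * (v i * G.m e) ≤ r ^ 8 * r ^ 5 :=
              mul_le_mul (hLle i) hvm (by positivity) (by positivity)
            have h9 : (0 : ℝ) ≤ mu (G.d e) * G.n e := by positivity
            have h10 : r ^ 8 * r ^ 5 = r ^ 13 := by ring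
            rw [h5, h7]
            linarith
          have hva : (v i : ℝ) * G.a' e ≤ r ^ 3 := by
            have : v i * G.a' e ≤ R ^ 3 := by
              calc v i * G.a' e ≤ R ^ 2 * R := Nat.mul_le_mul (hv.bd _) (hR.a'_le e)
                _ = R ^ 3 := by ring
            rw [hrdef]
            exact_mod_cast this
          have ht1 : E * r ^ 40 ≤ t := by
            have h3 : (v i : ℝ) * G.a' e * t ≤ r ^ 3 * t := mul_le_mul_of_nonneg_right hva ht0
            have h4 : r ^ 3 * (E * r ^ 40) ≤ r ^ 3 * t := by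
              have h5 : r ^ 3 * (E * r ^ 40) = E * r ^ 43 := by ring
              rw [h5]
              linarith
            exact le_of_mul_le_mul_left h4 (by positivity)
          have hεt : r ^ 19 ≤ ε * t := by
            have h3 : ε * (E * r ^ 40) = r ^ 38 := by
              rw [hε]
              field_simp
            have h4 : ε * (E * r ^ 40) ≤ ε * t := mul_le_mul_of_nonneg_left ht1 hεpos.le
            have h5 : r ^ 19 ≤ r ^ 38 := pow_le_pow_right₀ hr1 (by norm_num)
            linarith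
          have h4 := c2_ineq hr hεpos.le hε1 hLW hW2 hεt
          linarith
      rw [hattr]
      linarith
  have hfin := claim (τ j n) j n hn rfl
  have hUle : U j n ≤ (mu j + 1 / E) * n + r ^ 18 := by
    have h1 := (hc0 (j, ((v j * n : ℕ) : ZMod G.Y))).2
    have h2 : (mu j / v j + ε) * ((v j * n : ℕ) : ℝ) = mu j * n + ε * v j * n := by
      push_cast
      linear_combination (n : ℝ) * hLv j
    have h3 : ε * v j ≤ 1 / E := by
      rw [hε]
      have h4 : 1 / (E * r ^ 2) * v j = (v j / r ^ 2) / E := by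
        field_simp
      rw [h4]
      have h5 : (v j : ℝ) / r ^ 2 ≤ 1 := by
        rw [div_le_one (by positivity)]
        exact hvle j
      exact div_le_div_of_nonneg_right h5 hE0.le
    have h6 : ε * v j * n ≤ 1 / E * n := mul_le_mul_of_nonneg_right h3 (Nat.cast_nonneg _)
    simp only [hU]
    rw [h2]
    linarith
  have hlast : r ^ 18 + r ^ 2 * z ≤ E * r ^ 50 := by
    rw [hzr]
    have h1 : r ^ 18 ≤ r ^ 48 := pow_le_pow_right₀ hr1 (by norm_num)
    have h2 : r ^ 2 * (E * r ^ 46) = E * r ^ 48 := by ring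
    have h3 : E * r ^ 50 = r ^ 2 * (E * r ^ 48) := by ring
    have h4 : (4 : ℝ) ≤ r ^ 2 := by nlinarith
    have h5 : (0 : ℝ) < r ^ 48 := by positivity
    have h6 : r ^ 48 ≤ E * r ^ 48 := by nlinarith
    rw [h2, h3]
    nlinarith
  linarith

end Pool.Agent.LinSched
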