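import Pool.Agent.Lib.MP_b03ab8_lc.A.Earliest
import Pool.Agent.Lib.MP_b03ab8_lc.A.Norm
import Pool.Agent.Lib.MP_b03ab8_lc.A.LowB
import Pool.Agent.Lib.MP_b03ab8_lc.A.Upper

/-!
# Module A.Freq: the frequencies of a consistent non-reentrant linear graph

PROOF of `hasFrequency_of_bounds`. `τ j n / n → mu`: given `E`, for large `n`
`mu - C / n ≤ τ j n / n ≤ mu + 1 / E + E C' / n`. As `mu > 0`, the inverses
`n / τ j n` converge to `1 / mu` (`Filter.Tendsto.inv₀`).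

PROOF of `main_freq`. `exists_earliest`, `norm_ok`, `norm_isTau`, `norm_bnd`
(`R = 2 ^ (G.size + 1)`), `exists_v`, `exists_lam`, `exists_mu`, `mu_rat`, `mu_ge_one`,
`low_mu`, `upper`, `hasFrequency_of_bounds`.
-/

open Filter Topology Finset

namespace Pool.Agent.LinSched

variable {T : Type}

theorem hasFrequency_of_bounds (G : LinGraph T) (τ : T → ℕ → ℕ)
    (he : G.IsEarliest (fun i k => (τ i k : ℝ))) (j : T) (mu C C' : ℝ) (hmu : 0 < mu)
    (hlow : ∀ n : ℕ, 1 ≤ n → mu * n - C ≤ τ j n)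
    (hup : ∀ E : ℕ, 1 ≤ E → ∀ n : ℕ, 1 ≤ n → (τ j n : ℝ) ≤ (mu + 1 / E) * n + E * C') :
    G.HasFrequency j (1 / mu) := by
  refine ⟨fun i k => (τ i k : ℝ), he, ?_⟩
  have h1 : Tendsto (fun n : ℕ => (τ j n : ℝ) / n) atTop (𝓝 mu) := by
    rw [Metric.tendsto_atTop]
    intro ε hε
    obtain ⟨E, hE⟩ := exists_nat_gt (2 / ε)
    have hE0 : (0 : ℝ) < E := lt_trans (by positivity) hE
    have hE1 : 1 ≤ E := by
      have : 0 < E := by exact_mod_cast hE0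
      omega
    have hE2 : 1 / (E : ℝ) < ε / 2 := by
      rw [div_lt_div_iff₀ hE0 (by norm_num)]
      rw [div_lt_iff₀ hε] at hE
      linarith
    obtain ⟨N, hN⟩ := exists_nat_gt ((2 * (E * |C'|) + |C|) / ε)
    refine ⟨N + 1, fun n hn => ?_⟩
    have hn1 : 1 ≤ n := by omega
    have hn0 : (0 : ℝ) < n := by exact_mod_cast hn1
    have hNn : (N : ℝ) ≤ n := by
      have : N ≤ n := by omega
      exact_mod_cast this
    rw [div_lt_iff₀ hε] at hN
    have h2 : 2 * (E * |C'|) + |C| < ε * n := by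
      have h3 : (N : ℝ) * ε ≤ n * ε := mul_le_mul_of_nonneg_right hNn hε.le
      linarith
    have h4 : E * C' ≤ E * |C'| := mul_le_mul_of_nonneg_left (le_abs_self C') hE0.le
    have h5 : C ≤ |C| := le_abs_self C
    have h6 : 0 ≤ |C| := abs_nonneg C
    have h7 : 0 ≤ E * |C'| := mul_nonneg hE0.le (abs_nonneg C')
    have hlo := hlow n hn1
    have hu := hup E hE1 n hn1
    rw [Real.dist_eq, abs_sub_lt_iff]
    constructor
    · rw [sub_lt_iff_lt_add, div_lt_iff₀ hn0]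
      have h8 : (ε / 2) * n ≤ (ε - 1 / E) * n := mul_le_mul_of_nonneg_right (by linarith) hn0.le
      have h9 : (ε + mu) * n = (mu + 1 / E) * n + (ε - 1 / E) * n := by ring
      rw [h9]
      linarith
    · rw [sub_lt_comm, lt_div_iff₀ hn0]
      have h9 : (mu - ε) * n = mu * n - ε * n := by ring
      rw [h9]
      linarith
  have h2 := h1.inv₀ hmu.ne'
  rw [one_div]
  refine h2.congr fun n => ?_
  rw [inv_div]

theorem main_freq [Fintype T] (G : LinGraph T) (hc : G.Consistent) (hn : G.NonReentrant) :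
    ∃ (τ : T → ℕ → ℕ) (mu : T → ℝ), G.norm.IsTau τ ∧ (∀ j, 1 ≤ mu j) ∧
      (∀ j, ∃ x y : ℕ, 0 < x ∧ 0 < y ∧ x ≤ (2 ^ (G.size + 1)) ^ 8 ∧
        y ≤ (2 ^ (G.size + 1)) ^ 10 ∧ mu j * y = x) ∧
      (∀ j n, 1 ≤ n → mu j * n - ((2 : ℝ) ^ (G.size + 1)) ^ 21 ≤ τ j n) ∧
      (∀ E : ℕ, 1 ≤ E → ∀ j n, 1 ≤ n →
        (τ j n : ℝ) ≤ (mu j + 1 / E) * n + E * ((2 : ℝ) ^ (G.size + 1)) ^ 50) ∧
      ∀ j, G.HasFrequency j (1 / mu j) := by
  obtain ⟨τ, he, ha⟩ := exists_earliest G hc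
  have hG := norm_ok G hn
  have hτ := norm_isTau G τ he ha
  have hR := norm_bnd G
  obtain ⟨v, hv⟩ := exists_v hG hτ hR
  obtain ⟨lam, hl⟩ := exists_lam hG hτ hR hv
  obtain ⟨mu, hm⟩ := exists_mu hG hτ hR hv hl
  have hcast : ((2 ^ (G.size + 1) : ℕ) : ℝ) = (2 : ℝ) ^ (G.size + 1) := by push_cast; rfl
  have hlow : ∀ j n, 1 ≤ n → mu j * n - ((2 : ℝ) ^ (G.size + 1)) ^ 21 ≤ τ j n := by
    intro j n hn1
    have h1 := low_mu hG hτ hR hv hl hm j n hn1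
    rw [hcast] at h1
    exact h1
  have hup : ∀ E : ℕ, 1 ≤ E → ∀ j n, 1 ≤ n →
        (τ j n : ℝ) ≤ (mu j + 1 / E) * n + E * ((2 : ℝ) ^ (G.size + 1)) ^ 50 := by
    intro E hE j n hn1
    have h1 := upper hG hτ hR hv hl hm E hE j n hn1
    rw [hcast] at h1
    exact h1
  refine ⟨τ, mu, hτ, mu_ge_one hl hm, mu_rat hG hτ hR hv hl hm, hlow, hup, fun j => ?_⟩
  exact hasFrequency_of_bounds G τ he j (mu j) _ _ (lt_of_lt_of_le one_pos (mu_ge_one hl hm j))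
    (fun n hn1 => hlow j n hn1) (fun E hE n hn1 => hup E hE j n hn1)

end Pool.Agent.LinSched
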