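import Pool.Agent.Lib.MP_b03ab8_lc.A.Lift

/-!
# Module A.Lam: the maximal ratios of the closed walks of the level graph

PROOF of `exists_lam`. Fix `i`. Let `C i` be the set of pairs `(x, l)` with
`Walk vs vd (i, x) l (i, x)`, `l ≠ []`, `(l.map vs).Nodup`. It is finite: `l.length ≤ R ^ 4`
(`simple_length`), `VE` is finite (`finite_VE`), `ZMod Y` is finite. By `closed_pos`,
`∑ D ≥ 1` for its elements; let `lam i` be the maximum of `(∑ p) / (∑ D)`
(`Set.exists_max_image`). Then `ge` and `att` are clear once `C i` is nonempty.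
Nonempty and `one_le`: let `e` be the loop of `i` (`hG.loop`: `a = a' = m = 1`, `n = 2`), put
`w = v i`, `K = Y / w` (`v_dvd_Y`, so `w * K = Y`, `K ≥ 1`). For `k < K` let
`q_k = (e, ((w * k : ℕ) : ZMod Y))`; it is an element of `VE`: tight since
`s e = d e`, `a = a'`; and for `t = k - 1` if `k ≥ 1`, `t = K - 1` if `k = 0`,
`w (1 + t) = w k` modulo `Y`. `vs q_k = (i, w k)`, `vd q_k = (i, w k + w) = (i, w (k + 1))`
(`D e = 2 w - w = w`). So `[q_0, ..., q_{K-1}]` is a closed walk from `(i, 0)` to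
`(i, w K) = (i, 0)`; the sources are distinct, as `w k = w k'` modulo `Y`, `k, k' < K`, implies
`w k = w k'` (both `< Y`). Its `∑ D = K w = Y` and `∑ p = K p i ≥ K`; so
`K ≤ lam i * Y = lam i * w * K`, i.e. `1 ≤ lam i * v i`.

PROOF of `lam_rat`. Take `(x, l)` from `att`: `ℓ = ∑ p ≤ l.length * R ≤ R ^ 5`
(`sum_vp_le`, `simple_length`), `d = ∑ D ≥ 1` and `≤ l.length * R ^ 5 ≤ R ^ 9`
(`sum_vD_le`), `ℓ ≥ l.length ≥ 1`.
-/

open Finset

namespace Pool.Agent.LinSched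

variable {T ι : Type} [Fintype T] [Fintype ι] {G : NGraph T ι} {τ : T → ℕ → ℕ} {R : ℕ}
  {v : T → ℕ}

omit [Fintype T] in
/-- the loop walk -/
private theorem lam_loop (hG : G.Ok) (hv : G.IsPot R v) (i : T) :
    ∃ (l : List (G.VE v)) (K : ℕ), 1 ≤ K ∧ Walk (G.vs v) (G.vd v) (i, 0) l (i, 0) ∧ l ≠ [] ∧
      (l.map (G.vs v)).Nodup ∧ (l.map (G.vD v)).sum = (K : ℤ) * v i ∧
      K ≤ (l.map (G.vp v)).sum := by
  obtain ⟨e, rfl, h2, h3, h4, h5, h6⟩ := hG.loop i
  have hY : 0 < G.Y := Y_pos hG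
  have hw : 0 < v (G.s e) := hv.pos _
  obtain ⟨K, hK⟩ := v_dvd_Y hv (G.s e)
  have hK0 : 0 < K := by
    rcases Nat.eq_zero_or_pos K with h | h
    · rw [h, mul_zero] at hK
      omega
    · exact h
  have hD : G.D v e = v (G.s e) := by
    unfold NGraph.D
    rw [h2, h5, h6]
    push_cast
    ring
  let q : ℕ → G.VE v := fun k => ⟨(e, ((v (G.s e) * k : ℕ) : ZMod G.Y)), by
    refine ⟨?_, k + K - 1, ?_⟩
    · show v (G.s e) * G.a' e = v (G.d e) * G.a e
      rw [h2, h3, h4]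
    · show ((v (G.s e) * k : ℕ) : ZMod G.Y) =
        ((v (G.s e) * (G.m e + G.a' e * (k + K - 1)) : ℕ) : ZMod G.Y)
      rw [h4, h5]
      have h7 : v (G.s e) * (1 + 1 * (k + K - 1)) = v (G.s e) * k + G.Y := by
        rw [hK, show 1 + 1 * (k + K - 1) = k + K by omega, Nat.mul_add]
      rw [h7]
      push_cast
      rw [ZMod.natCast_self, add_zero]⟩
  have hvs : ∀ k, G.vs v (q k) = (G.s e, ((v (G.s e) * k : ℕ) : ZMod G.Y)) := fun _ => rfl
  have hvd : ∀ k, G.vd v (q k) = (G.s e, ((v (G.s e) * (k + 1) : ℕ) : ZMod G.Y)) := by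
    intro k
    show (G.d e, ((v (G.s e) * k : ℕ) : ZMod G.Y) + ((G.D v e : ℤ) : ZMod G.Y)) = _
    rw [h2, hD, Nat.mul_add, mul_one]
    push_cast
    rfl
  have hwalk : ∀ N, Walk (G.vs v) (G.vd v) (G.s e, 0) ((List.range N).map q)
      (G.s e, ((v (G.s e) * N : ℕ) : ZMod G.Y)) := by
    intro N
    induction N with
    | zero =>
      rw [mul_zero, Nat.cast_zero]
      exact Walk.nil _
    | succ N ih =>
      rw [List.range_succ, List.map_append]
      have h7 := Walk.single (s := G.vs v) (d := G.vd v) (q N)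
      rw [hvs, hvd] at h7
      exact ih.append h7
  refine ⟨(List.range K).map q, K, hK0, ?_, ?_, ?_, ?_, ?_⟩
  · have h7 := hwalk K
    rw [← hK, ZMod.natCast_self] at h7
    exact h7
  · intro h
    rw [List.map_eq_nil_iff, List.range_eq_nil] at h
    omega
  · rw [List.map_map]
    refine List.Nodup.map_on ?_ List.nodup_range
    intro k hk k' hk' h
    have h7 : ((v (G.s e) * k : ℕ) : ZMod G.Y) = ((v (G.s e) * k' : ℕ) : ZMod G.Y) :=
      congrArg Prod.snd h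
    rw [ZMod.natCast_eq_natCast_iff'] at h7
    have h8 : ∀ j, j < K → v (G.s e) * j < G.Y := by
      intro j hj
      rw [hK]
      exact Nat.mul_lt_mul_of_pos_left hj hw
    rw [Nat.mod_eq_of_lt (h8 k (List.mem_range.1 hk)),
      Nat.mod_eq_of_lt (h8 k' (List.mem_range.1 hk'))] at h7
    exact Nat.eq_of_mul_eq_mul_left hw h7
  · rw [List.map_map]
    have h7 : (G.vD v) ∘ q = fun _ => (v (G.s e) : ℤ) := by
      funext k
      exact hD
    rw [h7, List.map_const', List.sum_replicate, List.length_range, nsmul_eq_mul]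
  · rw [List.map_map]
    have h7 : (G.vp v) ∘ q = fun _ => G.p (G.s e) := rfl
    rw [h7, List.map_const', List.sum_replicate, List.length_range, smul_eq_mul]
    exact Nat.le_mul_of_pos_right K (hG.p_pos _)

theorem exists_lam (hG : G.Ok) (hτ : G.IsTau τ) (hR : G.Bnd R) (hv : G.IsPot R v) :
    ∃ lam, G.IsLam v lam := by
  classical
  have hY : NeZero G.Y := ⟨(Y_pos hG).ne'⟩
  have hfin : Finite (G.VE v) := finite_VE hG v
  have hmax : ∀ i : T, ∃ z : ZMod G.Y × List (G.VE v),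
      (Walk (G.vs v) (G.vd v) (i, z.1) z.2 (i, z.1) ∧ z.2 ≠ [] ∧ (z.2.map (G.vs v)).Nodup) ∧
      ∀ z' : ZMod G.Y × List (G.VE v),
        (Walk (G.vs v) (G.vd v) (i, z'.1) z'.2 (i, z'.1) ∧ z'.2 ≠ [] ∧
          (z'.2.map (G.vs v)).Nodup) →
        ((z'.2.map (G.vp v)).sum : ℝ) / (((z'.2.map (G.vD v)).sum : ℤ) : ℝ) ≤
          ((z.2.map (G.vp v)).sum : ℝ) / (((z.2.map (G.vD v)).sum : ℤ) : ℝ) := by
    intro i
    have hC : {z : ZMod G.Y × List (G.VE v) | Walk (G.vs v) (G.vd v) (i, z.1) z.2 (i, z.1) ∧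
        z.2 ≠ [] ∧ (z.2.map (G.vs v)).Nodup}.Finite := by
      have h1 : ((Set.univ : Set (ZMod G.Y)) ×ˢ {l : List (G.VE v) | l.length ≤ R ^ 4}).Finite :=
        Set.finite_univ.prod (List.finite_length_le _ _)
      refine h1.subset fun z hz => ⟨Set.mem_univ _, ?_⟩
      exact simple_length hG hR hz.2.2
    obtain ⟨l, K, -, h1, h2, h3, -⟩ := lam_loop hG hv i
    obtain ⟨z, hz, hz'⟩ := Set.exists_max_image _ (fun z : ZMod G.Y × List (G.VE v) =>
      ((z.2.map (G.vp v)).sum : ℝ) / (((z.2.map (G.vD v)).sum : ℤ) : ℝ)) hC ⟨(0, l), h1, h2, h3⟩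
    exact ⟨z, hz, fun z' h => hz' z' h⟩
  choose z hz hz' using hmax
  have hpos : ∀ (x : T × ZMod G.Y) (l : List (G.VE v)), Walk (G.vs v) (G.vd v) x l x → l ≠ [] →
      (0 : ℝ) < (((l.map (G.vD v)).sum : ℤ) : ℝ) := by
    intro x l h1 h2
    have h3 := closed_pos hG hτ hR hv x l h1 h2
    exact_mod_cast h3
  set lam : T → ℝ := fun i =>
    (((z i).2.map (G.vp v)).sum : ℝ) / ((((z i).2.map (G.vD v)).sum : ℤ) : ℝ) with hlam
  have hge : ∀ i x l, Walk (G.vs v) (G.vd v) (i, x) l (i, x) → l ≠ [] →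
      (l.map (G.vs v)).Nodup →
      ((l.map (G.vp v)).sum : ℝ) ≤ lam i * ((l.map (G.vD v)).sum : ℤ) := by
    intro i x l h1 h2 h3
    have h4 := hz' i (x, l) ⟨h1, h2, h3⟩
    rwa [div_le_iff₀ (hpos _ _ h1 h2)] at h4
  refine ⟨lam, hge, fun i => ?_, fun i => ?_⟩
  · refine ⟨(z i).1, (z i).2, (hz i).1, (hz i).2.1, (hz i).2.2, ?_⟩
    exact div_mul_cancel₀ _ (hpos _ _ (hz i).1 (hz i).2.1).ne'
  · obtain ⟨l, K, hK, h1, h2, h3, h4, h5⟩ := lam_loop hG hv i
    have h6 := hge i 0 l h1 h2 h3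
    rw [h4] at h6
    have h7 : (K : ℝ) ≤ ((l.map (G.vp v)).sum : ℝ) := by exact_mod_cast h5
    have h8 : (0 : ℝ) < K := by exact_mod_cast hK
    rw [Int.cast_mul, Int.cast_natCast, Int.cast_natCast] at h6
    have h9 : (K : ℝ) * 1 ≤ K * (lam i * v i) := by
      rw [mul_one]
      calc (K : ℝ) ≤ _ := h7
        _ ≤ _ := h6
        _ = _ := by ring
    exact le_of_mul_le_mul_left h9 h8

theorem lam_rat (hG : G.Ok) (hτ : G.IsTau τ) (hR : G.Bnd R) (hv : G.IsPot R v) {lam : T → ℝ}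
    (hl : G.IsLam v lam) (i : T) :
    ∃ x y : ℕ, 0 < x ∧ 0 < y ∧ x ≤ R ^ 5 ∧ y ≤ R ^ 9 ∧ lam i * y = x := by
  obtain ⟨x, l, hw, hne, hnd, h⟩ := hl.att i
  have h1 := closed_pos hG hτ hR hv _ l hw hne
  have h2 : l.length ≤ R ^ 4 := simple_length hG hR hnd
  have h3 := sum_vp_le hR l
  have h4 := sum_vp_ge hG l
  have h5 := sum_vD_le hR hv l
  have h6 : 0 < l.length := List.length_pos_of_ne_nil hne
  have h7 : (((l.map (G.vD v)).sum.toNat : ℕ) : ℤ) = (l.map (G.vD v)).sum :=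
    Int.toNat_of_nonneg (by omega)
  refine ⟨(l.map (G.vp v)).sum, (l.map (G.vD v)).sum.toNat, by omega, by omega, ?_, ?_, ?_⟩
  · calc (l.map (G.vp v)).sum ≤ l.length * R := h3
      _ ≤ R ^ 4 * R := Nat.mul_le_mul_right R h2
      _ = R ^ 5 := by ring
  · have h8 : (((l.map (G.vD v)).sum.toNat : ℕ) : ℤ) ≤ ((R ^ 9 : ℕ) : ℤ) := by
      rw [h7]
      calc (l.map (G.vD v)).sum ≤ l.length * (R : ℤ) ^ 5 := h5
        _ ≤ (R : ℤ) ^ 4 * (R : ℤ) ^ 5 := by
          apply mul_le_mul_of_nonneg_right _ (by positivity)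
          exact_mod_cast h2
        _ = ((R ^ 9 : ℕ) : ℤ) := by push_cast; ring
    exact_mod_cast h8
  · rw [← h]
    have h9 : ∀ n : ℤ, 0 ≤ n → ((n.toNat : ℕ) : ℝ) = (n : ℝ) := by
      intro n hn
      have h10 : ((n.toNat : ℕ) : ℤ) = n := Int.toNat_of_nonneg hn
      exact_mod_cast congrArg (fun n : ℤ => (n : ℝ)) h10
    rw [h9 _ (by omega)]

end Pool.Agent.LinSched
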