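import Pool.Agent.Lib.MP_b03ab8_lc.A.Basic

/-!
# Module A.Lift: walks of the level graph lift to chains of constraints

PROOF of `lift_walk`. Induction on the walk (generalize `n`). Empty: `n' = n`. Edge `q` with
arc `e`, `q.2 = ((v (s e) (m e + a' e t) : ℕ) : ZMod Y)`, `x = (s e, q.2)`. From
`(v (s e) n : ZMod Y) = (v (s e) (m e + a' e t) : ZMod Y)` and `v (s e) a' e ∣ Y`
(`va_dvd_Y`): `v (s e) a' e` divides `v (s e) (n - m e - a' e t)` in `ℤ`, so `a' e` divides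
`n - m e` in `ℤ`. As `v (s e) m e ≤ R ^ 5 ≤ v (s e) n` (`vm_le`), `m e ≤ n`. So
`n = m e + a' e t'` with `t' : ℕ`. Put `n1 = n e + a e t'`. By `IsTau.le`,
`τ (s e) n + p ≤ τ (d e) n1`. Tightness `v (s e) a' e = v (d e) a e` gives
`v (d e) n1 = v (s e) n + D e` in `ℤ`; hence also the residue class of `v (d e) n1` is
`q.2 + D e`, the second component of `vd q`. As `D e ≥ - R ^ 5` (`D_ge`),
`(l'.length + 1) R ^ 5 ≤ v (d e) n1` for the rest `l'` of the walk. Apply the induction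
hypothesis to `n1`.

PROOF of `closed_pos`. `l` begins with an edge `q`, so `x = (s e, class of
v (s e) (m e + a' e t))`; for `n = m e + a' e t + Y K` with `K` large (`Y ≥ 1`, `v ≥ 1`) the
hypotheses of `lift_walk` hold; we get `n'` with `v n' = v n + ∑ D` and
`τ n + ∑ p ≤ τ n'`, `∑ p ≥ l.length ≥ 1` (`sum_vp_ge`). If `∑ D ≤ 0` then `n' ≤ n` and
`τ n' ≤ τ n` (`tau_mono`), a contradiction.
-/

open Finset

namespace Pool.Agent.LinSched

variable {T ι : Type} [Fintype T] [Fintype ι] {G : NGraph T ι} {τ : T → ℕ → ℕ} {R : ℕ}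
  {v : T → ℕ}

theorem lift_walk (hG : G.Ok) (hτ : G.IsTau τ) (hR : G.Bnd R) (hv : G.IsPot R v)
    (x y : T × ZMod G.Y) (l : List (G.VE v)) (hw : Walk (G.vs v) (G.vd v) x l y)
    (n : ℕ) (hn : 1 ≤ n) (hx : ((v x.1 * n : ℕ) : ZMod G.Y) = x.2)
    (hl : (l.length + 1) * R ^ 5 ≤ v x.1 * n) :
    ∃ n' : ℕ, 1 ≤ n' ∧ ((v y.1 * n' : ℕ) : ZMod G.Y) = y.2 ∧
      ((v y.1 * n' : ℕ) : ℤ) = ((v x.1 * n : ℕ) : ℤ) + (l.map (G.vD v)).sum ∧
      τ x.1 n + (l.map (G.vp v)).sum ≤ τ y.1 n' := by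
  induction hw generalizing n with
  | nil x => exact ⟨n, hn, hx, by simp, by simp⟩
  | @cons q l y hw ih =>
    obtain ⟨⟨e, x⟩, htight, t, ht⟩ := q
    change v (G.s e) * G.a' e = v (G.d e) * G.a e at htight
    change x = ((v (G.s e) * (G.m e + G.a' e * t) : ℕ) : ZMod G.Y) at ht
    change ((v (G.s e) * n : ℕ) : ZMod G.Y) = x at hx
    change (l.length + 1 + 1) * R ^ 5 ≤ v (G.s e) * n at hl
    have hvpos : 0 < v (G.s e) := hv.pos _
    have hmod : n ≡ G.m e + G.a' e * t [MOD G.a' e] := by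
      have h1 : v (G.s e) * n ≡ v (G.s e) * (G.m e + G.a' e * t) [MOD G.Y] := by
        rw [← ZMod.natCast_eq_natCast_iff, hx, ht]
      exact Nat.ModEq.mul_left_cancel' hvpos.ne' (h1.of_dvd (va_dvd_Y hv (G.s e) e))
    have hmod2 : G.m e ≡ n [MOD G.a' e] := by
      have h1 : G.m e + G.a' e * t ≡ G.m e [MOD G.a' e] := by
        unfold Nat.ModEq
        rw [Nat.add_mul_mod_self_left]
      exact (hmod.trans h1).symm
    have hmn : G.m e ≤ n := by
      have h1 := vm_le hR hv e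
      have h2 : v (G.s e) * G.m e ≤ v (G.s e) * n := by
        refine h1.trans (le_trans ?_ hl)
        exact Nat.le_mul_of_pos_left _ (Nat.succ_pos _)
      exact Nat.le_of_mul_le_mul_left h2 hvpos
    obtain ⟨t', ht'⟩ := (Nat.modEq_iff_dvd' hmn).mp hmod2
    obtain rfl : n = G.m e + G.a' e * t' := by omega
    have hD : ((v (G.d e) * (G.n e + G.a e * t') : ℕ) : ℤ) =
        ((v (G.s e) * (G.m e + G.a' e * t') : ℕ) : ℤ) + G.D v e := by
      have h1 : ((v (G.s e) * G.a' e : ℕ) : ℤ) = ((v (G.d e) * G.a e : ℕ) : ℤ) := by rw [htight]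
      unfold NGraph.D
      push_cast at h1 ⊢
      linear_combination (-(t' : ℤ)) * h1
    have hDge := D_ge hR hv e
    obtain ⟨n', h1, h2, h3, h4⟩ := ih (G.n e + G.a e * t') (le_trans (hG.n_pos e) (Nat.le_add_right _ _))
      (by
        change ((v (G.d e) * (G.n e + G.a e * t') : ℕ) : ZMod G.Y) = x + ((G.D v e : ℤ) : ZMod G.Y)
        have h1 := congrArg (fun z : ℤ => (z : ZMod G.Y)) hD
        simp only [Int.cast_add, Int.cast_natCast] at h1
        rw [h1, hx])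
      (by
        change (l.length + 1) * R ^ 5 ≤ v (G.d e) * (G.n e + G.a e * t')
        have h1 : (((l.length + 1 + 1) * R ^ 5 : ℕ) : ℤ) ≤ ((v (G.s e) * (G.m e + G.a' e * t') : ℕ) : ℤ) := by
          exact_mod_cast hl
        have h2 : (((l.length + 1) * R ^ 5 : ℕ) : ℤ) ≤ ((v (G.d e) * (G.n e + G.a e * t') : ℕ) : ℤ) := by
          rw [hD]
          push_cast at h1 ⊢
          linarith
        exact_mod_cast h2)
    refine ⟨n', h1, h2, ?_, ?_⟩
    · rw [h3, List.map_cons, List.sum_cons]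
      change ((v (G.d e) * (G.n e + G.a e * t') : ℕ) : ℤ) + (l.map (G.vD v)).sum =
        ((v (G.s e) * (G.m e + G.a' e * t') : ℕ) : ℤ) + (G.D v e + (l.map (G.vD v)).sum)
      rw [hD]
      ring
    · rw [List.map_cons, List.sum_cons]
      change τ (G.s e) (G.m e + G.a' e * t') + (G.p (G.s e) + (l.map (G.vp v)).sum) ≤ τ y.1 n'
      have h5 := hτ.le e t'
      change τ (G.d e) (G.n e + G.a e * t') + (l.map (G.vp v)).sum ≤ τ y.1 n' at h4
      omega

theorem closed_pos (hG : G.Ok) (hτ : G.IsTau τ) (hR : G.Bnd R) (hv : G.IsPot R v)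
    (x : T × ZMod G.Y) (l : List (G.VE v)) (hw : Walk (G.vs v) (G.vd v) x l x)
    (hl : l ≠ []) : 1 ≤ (l.map (G.vD v)).sum := by
  obtain ⟨q, l', hql⟩ := List.exists_cons_of_ne_nil hl
  have hx : G.vs v q = x := by
    rw [hql] at hw
    exact hw.cons_inv.1
  obtain ⟨⟨e, x2⟩, htight, t, ht⟩ := q
  change x2 = ((v (G.s e) * (G.m e + G.a' e * t) : ℕ) : ZMod G.Y) at ht
  change (G.s e, x2) = x at hx
  subst hx
  have hY := Y_pos hG
  have hvpos : 0 < v (G.s e) := hv.pos _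
  set N := G.m e + G.a' e * t + G.Y * ((l.length + 1) * R ^ 5) with hN
  have hN1 : 1 ≤ N := le_trans (hG.m_pos e) (by rw [hN, add_assoc]; exact Nat.le_add_right _ _)
  obtain ⟨n', h1, h2, h3, h4⟩ := lift_walk hG hτ hR hv _ _ l hw N hN1
    (by
      change ((v (G.s e) * N : ℕ) : ZMod G.Y) = x2
      rw [ht, hN]
      push_cast
      rw [ZMod.natCast_self]
      ring)
    (by
      change (l.length + 1) * R ^ 5 ≤ v (G.s e) * N
      calc (l.length + 1) * R ^ 5 ≤ G.Y * ((l.length + 1) * R ^ 5) := Nat.le_mul_of_pos_left _ hY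
        _ ≤ N := by rw [hN]; exact Nat.le_add_left _ _
        _ ≤ v (G.s e) * N := Nat.le_mul_of_pos_left _ hvpos)
  by_contra hc
  push Not at hc
  have h5 : ((v (G.s e) * n' : ℕ) : ℤ) ≤ ((v (G.s e) * N : ℕ) : ℤ) := by
    change ((v (G.s e) * n' : ℕ) : ℤ) = ((v (G.s e) * N : ℕ) : ℤ) + (l.map (G.vD v)).sum at h3
    omega
  have h6 : v (G.s e) * n' ≤ v (G.s e) * N := by exact_mod_cast h5
  have h7 : n' ≤ N := Nat.le_of_mul_le_mul_left h6 hvpos
  have h8 := tau_mono hG hτ (G.s e) h1 h7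
  have h9 := sum_vp_ge hG l
  have h10 : 1 ≤ l.length := by
    rw [hql]
    simp
  change τ (G.s e) N + (l.map (G.vp v)).sum ≤ τ (G.s e) n' at h4
  omega

end Pool.Agent.LinSched
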