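import Pool.Agent.Lib.MP_b03ab8_lc.A.Lam

/-!
# Module A.LowA: lower bound from the critical closed walk

PROOF. Take `x`, `l` from `IsLam.att` for `i`: a simple closed walk of the level graph at
`(i, x)`, `w = v i`, `d = ∑ D ≥ 1` (`closed_pos`), `ℓ = ∑ p`, `lam i * d = ℓ`; `1 ≤ l.length ≤ R ^ 4`
(`simple_length`), `ℓ ≤ R ^ 5` (`sum_vp_le`), so `lam i ≤ ℓ ≤ R ^ 5`.
The first edge of `l` shows that `x` is the class of `w n0` for some `n0` (`VE` membership). Let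
`n1 ≥ 1` be the least natural number with `w n1 ≡ x` modulo `Y` and
`w n1 ≥ R ^ 10`; then `n1 ≤ R ^ 10 + R ^ 3` (as `w n1` determines its class modulo `Y`, the
numbers `n ≡ n0` modulo `Y` all work, one of them lies in
`[R ^ 10, R ^ 10 + Y - 1]`, `Y ≤ R ^ 3`), and `w n1 ≤ R ^ 2 (R ^ 10 + R ^ 3)`.
`(l.length + 1) R ^ 5 ≤ (R ^ 4 + 1) R ^ 5 ≤ R ^ 10`.
By `lift_walk` (closed walk), for every `n ≥ n1` with `w n ≡ x`: there is `n'` with
`w n' = w n + d`, `τ i n + ℓ ≤ τ i n'`; again `w n' ≡ x` (the class of `d` is `0`; or directly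
from the conclusion of `lift_walk`) and `n' ≥ n1`. By induction there is for every `k` an
`n_k` with `w n_k = w n1 + k d` and `k ℓ ≤ τ i n_k`.
Now let `n ≥ 1`. If `w n ≥ w n1` let `k = (w n - w n1) / d` (division in `ℕ`), then `n_k ≤ n`,
so `τ i n ≥ k ℓ ≥ ((w n - w n1) / d - 1) ℓ = lam i (w n) - lam i (w n1) - ℓ` (real division),
and `lam i (w n1) + ℓ ≤ R ^ 5 (R ^ 12 + R ^ 5) + R ^ 5 ≤ R ^ 18`. If `w n < w n1` then
`lam i w n ≤ R ^ 5 (R ^ 12 + R ^ 5) ≤ R ^ 18` and the claim is trivial.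
(`R ^ 17 + R ^ 10 + R ^ 5 ≤ R ^ 18` since `R ≥ 2`: `R ^ 10 + R ^ 5 ≤ R ^ 17`.)
-/

open Finset

namespace Pool.Agent.LinSched

variable {T ι : Type} [Fintype T] [Fintype ι] {G : NGraph T ι} {τ : T → ℕ → ℕ} {R : ℕ}
  {v : T → ℕ}

/-- a representative of a residue class above `A` -/
private theorem lowa_repr {Y : ℕ} (hY : 0 < Y) (n0 A : ℕ) :
    ∃ n1, A ≤ n1 ∧ n1 ≤ A + Y ∧ n1 ≡ n0 [MOD Y] := by
  refine ⟨A + (n0 + Y * A - A) % Y, Nat.le_add_right _ _, Nat.add_le_add_left (Nat.mod_lt _ hY).le _, ?_⟩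
  have h1 : A ≤ Y * A := Nat.le_mul_of_pos_left _ hY
  have h2 : A + (n0 + Y * A - A) % Y ≡ A + (n0 + Y * A - A) [MOD Y] :=
    Nat.ModEq.add_left _ (Nat.mod_modEq _ _)
  have h3 : A + (n0 + Y * A - A) = n0 + Y * A := by omega
  rw [h3] at h2
  refine h2.trans ?_
  unfold Nat.ModEq
  rw [Nat.add_mul_mod_self_left]

/-- numerical estimate -/
private theorem lowa_num {r : ℝ} (hr : 2 ≤ r) : r ^ 5 * (r ^ 2 * (r ^ 10 + r ^ 3)) + r ^ 5 ≤ r ^ 18 := by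
  have h1 : (1 : ℝ) ≤ r := by linarith
  have h5 : r ^ 5 ≤ r ^ 10 := pow_le_pow_right₀ h1 (by norm_num)
  have h11 : r ^ 11 ≤ r ^ 17 := pow_le_pow_right₀ h1 (by norm_num)
  have e11 : r ^ 11 = r * r ^ 10 := by ring
  have e18 : r ^ 18 = r * r ^ 17 := by ring
  have p10 : 0 ≤ r ^ 10 := by positivity
  have p17 : 0 ≤ r ^ 17 := by positivity
  have h2 : 2 * r ^ 10 ≤ r * r ^ 10 := mul_le_mul_of_nonneg_right hr p10
  have h3 : 2 * r ^ 17 ≤ r * r ^ 17 := mul_le_mul_of_nonneg_right hr p17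
  have e : r ^ 5 * (r ^ 2 * (r ^ 10 + r ^ 3)) = r ^ 17 + r ^ 10 := by ring
  rw [e]
  linarith

theorem low_crit (hG : G.Ok) (hτ : G.IsTau τ) (hR : G.Bnd R) (hv : G.IsPot R v) {lam : T → ℝ}
    (hl : G.IsLam v lam) (i : T) (n : ℕ) (hn : 1 ≤ n) :
    lam i * v i * n - (R : ℝ) ^ 18 ≤ τ i n := by
  obtain ⟨x, l, hw, hne, hnd, hlam⟩ := hl.att i
  have hd : 1 ≤ (l.map (G.vD v)).sum := closed_pos hG hτ hR hv _ l hw hne
  have hlen : l.length ≤ R ^ 4 := simple_length hG hR hnd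
  have hpl : (l.map (G.vp v)).sum ≤ R ^ 5 := by
    refine (sum_vp_le hR l).trans ?_
    calc l.length * R ≤ R ^ 4 * R := Nat.mul_le_mul_right _ hlen
      _ = R ^ 5 := by ring
  have hY := Y_pos hG
  have hYR := Y_le hR
  have hR2 := hR.two_le
  have hwpos : 0 < v i := hv.pos i
  have hwle : v i ≤ R ^ 2 := hv.bd i
  set d : ℤ := (l.map (G.vD v)).sum with hdd
  set ℓ : ℕ := (l.map (G.vp v)).sum with hℓ
  obtain ⟨n0, hn0⟩ : ∃ n0 : ℕ, x = ((v i * n0 : ℕ) : ZMod G.Y) := by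
    obtain ⟨q, l', hql⟩ := List.exists_cons_of_ne_nil hne
    have hx : G.vs v q = (i, x) := by
      rw [hql] at hw
      exact hw.cons_inv.1
    obtain ⟨⟨e, x2⟩, htight, t, ht⟩ := q
    change x2 = ((v (G.s e) * (G.m e + G.a' e * t) : ℕ) : ZMod G.Y) at ht
    change (G.s e, x2) = (i, x) at hx
    rw [Prod.mk.injEq] at hx
    refine ⟨G.m e + G.a' e * t, ?_⟩
    rw [← hx.1, ← hx.2, ht]
  obtain ⟨n1, h1a, h1b, h1c⟩ := lowa_repr hY n0 (R ^ 10)
  have hn1x : ((v i * n1 : ℕ) : ZMod G.Y) = x := by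
    rw [hn0, ZMod.natCast_eq_natCast_iff]
    exact h1c.mul_left _
  have hn1pos : 1 ≤ n1 := le_trans (Nat.one_le_pow _ _ (by omega)) h1a
  have hbase : (l.length + 1) * R ^ 5 ≤ v i * n1 := by
    have e1 : (l.length + 1) * R ^ 5 ≤ (R ^ 4 + 1) * R ^ 5 := Nat.mul_le_mul_right _ (by omega)
    have e2 : (R ^ 4 + 1) * R ^ 5 ≤ R ^ 10 := by
      have f1 : R ^ 5 ≤ R ^ 9 := Nat.pow_le_pow_right (by omega) (by norm_num)
      have f2 : 2 * R ^ 9 ≤ R * R ^ 9 := Nat.mul_le_mul_right _ hR2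
      have f3 : R * R ^ 9 = R ^ 10 := by ring
      have f4 : (R ^ 4 + 1) * R ^ 5 = R ^ 9 + R ^ 5 := by ring
      omega
    exact e1.trans (e2.trans (h1a.trans (Nat.le_mul_of_pos_left _ hwpos)))
  have hiter : ∀ k : ℕ, ∃ nk : ℕ, 1 ≤ nk ∧ ((v i * nk : ℕ) : ZMod G.Y) = x ∧
      ((v i * nk : ℕ) : ℤ) = ((v i * n1 : ℕ) : ℤ) + k * d ∧ k * ℓ ≤ τ i nk := by
    intro k
    induction k with
    | zero => exact ⟨n1, hn1pos, hn1x, by simp, by simp⟩
    | succ k ih =>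
      obtain ⟨nk, ha, hb, hc, he⟩ := ih
      have hkd : 0 ≤ (k : ℤ) * d := mul_nonneg (Int.natCast_nonneg k) (by omega)
      obtain ⟨n', f1, f2, f3, f4⟩ := lift_walk hG hτ hR hv (i, x) (i, x) l hw nk ha hb (by
        change (l.length + 1) * R ^ 5 ≤ v i * nk
        have g1 : ((v i * n1 : ℕ) : ℤ) ≤ ((v i * nk : ℕ) : ℤ) := by
          rw [hc]
          omega
        have g2 : v i * n1 ≤ v i * nk := by exact_mod_cast g1
        exact hbase.trans g2)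
      change ((v i * n' : ℕ) : ZMod G.Y) = x at f2
      change ((v i * n' : ℕ) : ℤ) = ((v i * nk : ℕ) : ℤ) + d at f3
      change τ i nk + ℓ ≤ τ i n' at f4
      refine ⟨n', f1, f2, ?_, ?_⟩
      · rw [f3, hc]
        push_cast
        ring
      · rw [Nat.add_mul, one_mul]
        omega
  -- real estimates
  have hdR : (1 : ℝ) ≤ (d : ℝ) := by exact_mod_cast hd
  have hℓR : (ℓ : ℝ) ≤ (R : ℝ) ^ 5 := by exact_mod_cast hpl
  have hlam0 : 0 ≤ lam i := by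
    by_contra hc
    push Not at hc
    have g1 : lam i * (d : ℝ) < 0 := mul_neg_of_neg_of_pos hc (by linarith)
    rw [hlam] at g1
    exact absurd g1 (not_lt.mpr (Nat.cast_nonneg _))
  have hlamle : lam i ≤ (R : ℝ) ^ 5 := by
    have g1 : lam i * 1 ≤ lam i * (d : ℝ) := mul_le_mul_of_nonneg_left hdR hlam0
    rw [hlam, mul_one] at g1
    exact g1.trans hℓR
  have hwR : ((v i : ℕ) : ℝ) ≤ (R : ℝ) ^ 2 := by exact_mod_cast hwle
  have hn1R : (n1 : ℝ) ≤ (R : ℝ) ^ 10 + (R : ℝ) ^ 3 := by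
    have g1 : n1 ≤ R ^ 10 + R ^ 3 := h1b.trans (Nat.add_le_add_left hYR _)
    exact_mod_cast g1
  have hC : lam i * (v i * n1) ≤ (R : ℝ) ^ 5 * ((R : ℝ) ^ 2 * ((R : ℝ) ^ 10 + (R : ℝ) ^ 3)) := by
    refine mul_le_mul hlamle ?_ (by positivity) (by positivity)
    exact mul_le_mul hwR hn1R (by positivity) (by positivity)
  have hnum := lowa_num (r := (R : ℝ)) (by exact_mod_cast hR2)
  by_cases hcase : n1 ≤ n
  · have hw1 : ((v i * n1 : ℕ) : ℤ) ≤ ((v i * n : ℕ) : ℤ) := by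
      have g1 := Nat.mul_le_mul_left (v i) hcase
      exact_mod_cast g1
    set K : ℤ := (((v i * n : ℕ) : ℤ) - ((v i * n1 : ℕ) : ℤ)) / d with hK
    have hK0 : 0 ≤ K := Int.ediv_nonneg (by omega) (by omega)
    have hK1 : K * d ≤ ((v i * n : ℕ) : ℤ) - ((v i * n1 : ℕ) : ℤ) := Int.ediv_mul_le _ (by omega)
    have hK2 : ((v i * n : ℕ) : ℤ) - ((v i * n1 : ℕ) : ℤ) < (K + 1) * d := Int.lt_ediv_add_one_mul_self _ (by omega)
    obtain ⟨nk, f1, f2, f3, f4⟩ := hiter K.toNat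
    rw [Int.toNat_of_nonneg hK0] at f3
    have hnk : nk ≤ n := by
      have g1 : ((v i * nk : ℕ) : ℤ) ≤ ((v i * n : ℕ) : ℤ) := by
        rw [f3]
        omega
      have g2 : v i * nk ≤ v i * n := by exact_mod_cast g1
      exact Nat.le_of_mul_le_mul_left g2 hwpos
    have hτn := f4.trans (tau_mono hG hτ i f1 hnk)
    have hτR : (K : ℝ) * ℓ ≤ τ i n := by
      have g1 : ((K.toNat * ℓ : ℕ) : ℝ) ≤ (τ i n : ℝ) := by exact_mod_cast hτn
      have g2 : ((K.toNat : ℕ) : ℝ) = (K : ℝ) := by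
        have g3 := Int.toNat_of_nonneg hK0
        exact_mod_cast congrArg (fun z : ℤ => (z : ℝ)) g3
      rw [Nat.cast_mul, g2] at g1
      exact g1
    have hK2R : (v i : ℝ) * n - v i * n1 ≤ ((K : ℝ) + 1) * d := by
      have g1 : (((v i * n : ℕ) : ℤ) : ℝ) - (((v i * n1 : ℕ) : ℤ) : ℝ) < ((K : ℝ) + 1) * d := by
        exact_mod_cast hK2
      push_cast at g1
      exact g1.le
    have g1 := mul_le_mul_of_nonneg_left hK2R hlam0
    have g2 : lam i * (((K : ℝ) + 1) * d) = ((K : ℝ) + 1) * ℓ := by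
      rw [← hlam]
      ring
    rw [g2] at g1
    nlinarith
  · push Not at hcase
    have g1 : (n : ℝ) ≤ n1 := by exact_mod_cast hcase.le
    have g2 : lam i * (v i * n) ≤ lam i * (v i * n1) := by
      refine mul_le_mul_of_nonneg_left ?_ hlam0
      exact mul_le_mul_of_nonneg_left g1 (by positivity)
    have g3 : (0 : ℝ) ≤ τ i n := Nat.cast_nonneg _
    have g4 : (0 : ℝ) ≤ (R : ℝ) ^ 5 := by positivity
    rw [mul_assoc]
    linarith

end Pool.Agent.LinSched
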