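import Pool.Agent.Lib.MP_b03ab8_lc.A.Basic

/-!
# Module A.Pot: potentials from nonpositive closed walks

PROOF of `pot_add`. For `v : V` let `S v` be the set of pairs `(u, l)` with `Walk s d u l v`
and `(l.map s ++ [v]).Nodup`. It is nonempty (`(v, [])`) and finite: `l.length ≤ card V`
(`nodup_length_le`) and `ι`, `V` are finite (`List.finite_length_le` or
`List.finite_length_lt`). Let `c v` be the maximum of `a u + (l.map w).sum` over `S v`
(`Set.exists_max_image`), attained at `(u_v, l_v)`. `a v ≤ c v` by `(v, [])`.
For an edge `e` let `(u, l)` be optimal for `s e`.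
* If `d e ∉ l.map s ++ [s e]`: `(u, l ++ [e]) ∈ S (d e)` (its list of vertices is
  `l.map s ++ [s e] ++ [d e]`), so `c (d e) ≥ a u + w l + w e`.
* If `d e ∈ l.map s ++ [s e]`: if `d e = s e`, then `[e]` is a closed walk from `d e`,
  `w e ≤ 0` and `c (s e) + w e ≤ c (s e) = c (d e)`. Otherwise `d e ∈ l.map s`; by
  `Walk.split`, `l = l1 ++ l2`, `l2 ≠ []`, `l1` a walk from `u` to `d e`, `l2` a walk from `d e`
  to `s e`. `(u, l1) ∈ S (d e)` (the list `l1.map s ++ [d e]` is an initial part of
  `l.map s ++ [s e]`, since `l2` begins with an edge with source `d e`), and `l2 ++ [e]` is a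
  closed walk from `d e` with `((l2 ++ [e]).map s) = l2.map s ++ [s e]` nodup, so
  `w l2 + w e ≤ 0`, and `c (s e) + w e = a u + w l1 + w l2 + w e ≤ a u + w l1 ≤ c (d e)`.

PROOF of `pot_mul`. Apply `pot_add` with `Γ = ℝ`, weights `Real.log (w e)`, initial values
`Real.log (a v)`: `Real.log` of a product of positive numbers is the sum of the logs
(`Real.log_list_prod` or induction), nonpositive iff the product is `≤ 1`. Put
`c v = Real.exp (c' v)`.
-/

open Finset

namespace Pool.Agent.LinSched

theorem pot_add {V ι Γ : Type} [Finite V] [Finite ι] [AddCommGroup Γ] [LinearOrder Γ]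
    [IsOrderedAddMonoid Γ] (s d : ι → V) (w : ι → Γ) (a : V → Γ)
    (h : ∀ v l, Walk s d v l v → l ≠ [] → (l.map s).Nodup → (l.map w).sum ≤ 0) :
    ∃ c : V → Γ, (∀ v, a v ≤ c v) ∧ (∀ e, c (s e) + w e ≤ c (d e)) ∧
      ∀ v, ∃ u l, Walk s d u l v ∧ (l.map s ++ [v]).Nodup ∧ c v = a u + (l.map w).sum := by
  classical
  have _i1 := Fintype.ofFinite V
  set S : V → Set (V × List ι) :=
    fun v => {q | Walk s d q.1 q.2 v ∧ (q.2.map s ++ [v]).Nodup} with hS
  have hfin : ∀ v, (S v).Finite := by
    intro v
    have h1 : {l : List ι | l.length ≤ Fintype.card V}.Finite :=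
      List.finite_length_le ι (Fintype.card V)
    refine ((Set.finite_univ (α := V)).prod h1).subset ?_
    rintro ⟨u, l⟩ ⟨_, h2⟩
    refine ⟨trivial, ?_⟩
    exact nodup_length_le (List.Nodup.of_append_left h2)
  have hne : ∀ v, (v, []) ∈ S v := fun v => ⟨Walk.nil v, by simp⟩
  choose q hq hmax using fun v => Set.exists_max_image (S v)
    (fun q : V × List ι => a q.1 + (q.2.map w).sum) (hfin v) ⟨(v, []), hne v⟩
  refine ⟨fun v => a (q v).1 + ((q v).2.map w).sum, fun v => ?_, fun e => ?_, fun v =>
    ⟨(q v).1, (q v).2, (hq v).1, (hq v).2, rfl⟩⟩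
  · have := hmax v _ (hne v)
    simpa using this
  · obtain ⟨hw, hnd⟩ := hq (s e)
    have hm := hmax (d e)
    generalize hu : q (s e) = ul at hw hnd
    obtain ⟨u, l⟩ := ul
    simp only at hw hnd hm
    show a (q (s e)).1 + ((q (s e)).2.map w).sum + w e ≤ a (q (d e)).1 + ((q (d e)).2.map w).sum
    by_cases hd : d e ∈ l.map s ++ [s e]
    · by_cases he : d e = s e
      · have h1 : w e ≤ 0 := by
          have hwk : Walk s d (s e) [e] (s e) := by
            have h2 : Walk s d (s e) [e] (d e) := Walk.single e
            rwa [he] at h2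
          have := h (s e) [e] hwk (by simp) (by simp)
          simpa using this
        rw [he]
        calc a (q (s e)).1 + ((q (s e)).2.map w).sum + w e
            ≤ a (q (s e)).1 + ((q (s e)).2.map w).sum + 0 := by gcongr
          _ = _ := by rw [add_zero]
      · have hmem : d e ∈ l.map s := by
          rcases List.mem_append.mp hd with h1 | h1
          · exact h1
          · exact absurd (List.mem_singleton.mp h1) he
        obtain ⟨l1, l2, hl, hl2, hw1, hw2⟩ := hw.split hmem
        obtain ⟨e', l2', rfl⟩ : ∃ e' l2', l2 = e' :: l2' := List.exists_cons_of_ne_nil hl2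
        obtain ⟨hse, _⟩ := hw2.cons_inv
        have h1 : (u, l1) ∈ S (d e) := by
          refine ⟨hw1, ?_⟩
          refine hnd.sublist ?_
          rw [hl, List.map_append, List.map_cons, hse, List.append_assoc, List.append_sublist_append_left]
          simp
        have h2 : (((e' :: l2') ++ [e]).map w).sum ≤ 0 := by
          refine h (d e) _ (hw2.append (Walk.single e)) (by simp) ?_
          refine hnd.sublist ?_
          rw [hl, List.map_append, List.map_append, List.append_assoc]
          exact List.sublist_append_right _ _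
        have h3 := hm _ h1
        simp only at h3
        refine le_trans ?_ h3
        rw [hu, hl]
        simp only [List.map_append, List.sum_append, List.map_cons, List.sum_cons, List.map_nil,
          List.sum_nil, add_zero] at h2 ⊢
        calc a u + ((l1.map w).sum + (w e' + (l2'.map w).sum)) + w e
            = a u + (l1.map w).sum + (w e' + (l2'.map w).sum + w e) := by abel
          _ ≤ a u + (l1.map w).sum + 0 := by gcongr
          _ = _ := by rw [add_zero]
    · have h1 : (u, l ++ [e]) ∈ S (d e) := by
        refine ⟨hw.append (Walk.single e), ?_⟩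
        show ((l ++ [e]).map s ++ [d e]).Nodup
        rw [List.map_append]
        exact hnd.append (List.nodup_singleton _) (by
          intro x hx hx2
          rw [List.mem_singleton.mp hx2] at hx
          exact hd hx)
      have h3 := hm _ h1
      simp only at h3
      refine le_trans (le_of_eq ?_) h3
      rw [hu]
      simp only [List.map_append, List.sum_append, List.map_cons, List.sum_cons, List.map_nil,
        List.sum_nil, add_zero]
      abel

theorem pot_mul {V ι : Type} [Finite V] [Finite ι] (s d : ι → V) (w : ι → ℝ) (a : V → ℝ)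
    (hw : ∀ e, 0 < w e) (ha : ∀ v, 0 < a v)
    (h : ∀ v l, Walk s d v l v → l ≠ [] → (l.map s).Nodup → (l.map w).prod ≤ 1) :
    ∃ c : V → ℝ, (∀ v, 0 < c v) ∧ (∀ v, a v ≤ c v) ∧ (∀ e, c (s e) * w e ≤ c (d e)) ∧
      ∀ v, ∃ u l, Walk s d u l v ∧ (l.map s ++ [v]).Nodup ∧ c v = a u * (l.map w).prod := by
  have hlog : ∀ l : List ι, 0 < (l.map w).prod ∧
      (l.map (fun e => Real.log (w e))).sum = Real.log ((l.map w).prod) := by
    intro l
    induction l with
    | nil => simp
    | cons e l ih =>
      simp only [List.map_cons, List.prod_cons, List.sum_cons]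
      refine ⟨mul_pos (hw e) ih.1, ?_⟩
      rw [ih.2, Real.log_mul (hw e).ne' ih.1.ne']
  obtain ⟨c, h1, h2, h3⟩ := pot_add s d (fun e => Real.log (w e)) (fun v => Real.log (a v))
    (fun v l hwk hl hnd => by
      rw [(hlog l).2]
      exact Real.log_nonpos (hlog l).1.le (h v l hwk hl hnd))
  refine ⟨fun v => Real.exp (c v), fun v => Real.exp_pos _, fun v => ?_, fun e => ?_, fun v => ?_⟩
  · have := Real.exp_le_exp.mpr (h1 v)
    rwa [Real.exp_log (ha v)] at this
  · have := Real.exp_le_exp.mpr (h2 e)
    rwa [Real.exp_add, Real.exp_log (hw e)] at this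
  · obtain ⟨u, l, h4, h5, h6⟩ := h3 v
    refine ⟨u, l, h4, h5, ?_⟩
    simp only
    rw [h6, (hlog l).2, Real.exp_add, Real.exp_log (ha u), Real.exp_log (hlog l).1]

end Pool.Agent.LinSched
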