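import Pool.Agent.Lib.MP_b03ab8_lc.A.Basic

/-!
# Module A.Small: the small region is closed under predecessors

Let `θ` be as in `exists_theta` and `z ≥ R ^ 14`.

PROOF of `yy_step`. Let `i = s e`, `j = d e`, `m' = m e + a' e t`, `n' = n e + a e t`,
`zi = v i m'`, `zj = v j n'`.
* `e` tight (`v i a' = v j a`): `q = (e, class of zi)` is an edge of `VE`; `zj = zi + D e`, so
  `vs q = (i, class of zi)`, `vd q = (j, class of zj)` and
  `yy j n' = zj + θ (vd q) ≥ zi + D + θ (vs q) - D = yy i m' > z`.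
* `e` not tight: `v j a ≥ v i a' + 1`, so `zj = v j n_e + v j a t ≥ v i a' t + t
  = zi - v i m_e + t ≥ zi - R ^ 5 + t` (`vm_le`). From `yy i m' > z`, `θ ≤ R ^ 9`:
  `zi > z - R ^ 9 ≥ R ^ 14 - R ^ 9`. From `zi = v i m_e + v i a' t ≤ R ^ 5 + R ^ 3 t`:
  `R ^ 3 t > R ^ 14 - R ^ 9 - R ^ 5`, so `t ≥ R ^ 9 + R ^ 5` (if `t < R ^ 9 + R ^ 5` then
  `R ^ 3 t ≤ R ^ 12 + R ^ 8`, and `R ^ 12 + R ^ 8 + R ^ 9 + R ^ 5 ≤ R ^ 14` as `R ≥ 2`).
  Hence `yy j n' ≥ zj ≥ zi - R ^ 5 + R ^ 9 + R ^ 5 > z`.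

PROOF of `small_tau`. Let `S` be the finite set of the pairs `(i, m)`, `m ≥ 1`,
`yy i m ≤ z`; as `θ ≥ 0` and `v ≥ 1`, `m ≤ v i m ≤ z`, so `S` is a subset of
`univ ×ˢ Icc 1 z`, `card S ≤ R z`. Claim: for `(j, n)` in `S`,
`τ j n ≤ R * card {(i, m) ∈ S | τ i m < τ j n}`. Strong induction on `τ j n`: clear if
`τ j n = 0`. Otherwise (`IsTau.att`) `τ j n = τ i m + p i` with a constraint from `(i, m)` to
`(j, n)`; `yy i m ≤ z`, since otherwise `yy j n > z` (`yy_step`); `m ≥ 1` (`hG.m_pos`). So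
`(i, m) ∈ S`, `τ i m < τ j n`, and the set for `(j, n)` contains the set for `(i, m)` and
`(i, m)` itself. So `τ j n = τ i m + p i ≤ R * card + R`. Finally `R * (R z) = R ^ 2 z`.
-/

open Finset

namespace Pool.Agent.LinSched

variable {T ι : Type} [Fintype T] [Fintype ι] {G : NGraph T ι} {τ : T → ℕ → ℕ} {R : ℕ}
  {v : T → ℕ}

theorem yy_step (hG : G.Ok) (hR : G.Bnd R) (hv : G.IsPot R v) {θ : T × ZMod G.Y → ℤ}
    (h0 : ∀ x, 0 ≤ θ x ∧ θ x ≤ (R : ℤ) ^ 9)
    (hθ : ∀ q : G.VE v, θ (G.vs v q) - G.vD v q ≤ θ (G.vd v q)) (z : ℕ) (hz : R ^ 14 ≤ z)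
    (e : ι) (t : ℕ) (h : (z : ℤ) < G.yy v θ (G.s e) (G.m e + G.a' e * t)) :
    (z : ℤ) < G.yy v θ (G.d e) (G.n e + G.a e * t) := by
  by_cases ht : v (G.s e) * G.a' e = v (G.d e) * G.a e
  · set q : G.VE v := ⟨(e, ((v (G.s e) * (G.m e + G.a' e * t) : ℕ) : ZMod G.Y)), ht, t, rfl⟩
      with hq
    have h1 := hθ q
    have hint : ((v (G.d e) * (G.n e + G.a e * t) : ℕ) : ℤ)
        = ((v (G.s e) * (G.m e + G.a' e * t) : ℕ) : ℤ) + G.D v e := by
      unfold NGraph.D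
      have ht' : (v (G.s e) : ℤ) * G.a' e = v (G.d e) * G.a e := by exact_mod_cast ht
      push_cast
      linear_combination (-(t : ℤ)) * ht'
    have hcl : ((v (G.d e) * (G.n e + G.a e * t) : ℕ) : ZMod G.Y)
        = ((v (G.s e) * (G.m e + G.a' e * t) : ℕ) : ZMod G.Y) + ((G.D v e : ℤ) : ZMod G.Y) := by
      have := congrArg (Int.cast : ℤ → ZMod G.Y) hint
      rw [Int.cast_add, Int.cast_natCast, Int.cast_natCast] at this
      exact this
    have e1 : G.vs v q = (G.s e, ((v (G.s e) * (G.m e + G.a' e * t) : ℕ) : ZMod G.Y)) := rfl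
    have e2 : G.vd v q = (G.d e, ((v (G.d e) * (G.n e + G.a e * t) : ℕ) : ZMod G.Y)) := by
      rw [hcl]; rfl
    have e3 : G.vD v q = G.D v e := rfl
    rw [e1, e2, e3] at h1
    unfold NGraph.yy at h ⊢
    rw [hint]
    linarith
  · have h1 : v (G.s e) * G.a' e + 1 ≤ v (G.d e) * G.a e :=
      Nat.lt_of_le_of_ne (hv.le e) ht
    have h1' : (v (G.s e) : ℤ) * G.a' e + 1 ≤ v (G.d e) * G.a e := by exact_mod_cast h1
    have hvm : (v (G.s e) : ℤ) * G.m e ≤ (R : ℤ) ^ 5 := by exact_mod_cast vm_le hR hv e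
    have hva : (v (G.s e) : ℤ) * G.a' e ≤ (R : ℤ) ^ 3 := by
      have : v (G.s e) * G.a' e ≤ R ^ 3 := by
        calc v (G.s e) * G.a' e ≤ R ^ 2 * R := Nat.mul_le_mul (hv.bd _) (hR.a'_le e)
          _ = R ^ 3 := by ring
      exact_mod_cast this
    have hz' : (R : ℤ) ^ 14 ≤ z := by exact_mod_cast hz
    have hR2 : (2 : ℤ) ≤ R := by exact_mod_cast hR.two_le
    have hR1 : (1 : ℤ) ≤ R := by linarith
    unfold NGraph.yy at h ⊢
    have b1 := (h0 (G.s e, ((v (G.s e) * (G.m e + G.a' e * t) : ℕ) : ZMod G.Y))).2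
    have b2 := (h0 (G.d e, ((v (G.d e) * (G.n e + G.a e * t) : ℕ) : ZMod G.Y))).1
    have c1 : ((v (G.s e) * (G.m e + G.a' e * t) : ℕ) : ℤ)
        = (v (G.s e) : ℤ) * G.m e + (v (G.s e) : ℤ) * G.a' e * t := by push_cast; ring
    have c2 : ((v (G.d e) * (G.n e + G.a e * t) : ℕ) : ℤ)
        = (v (G.d e) : ℤ) * G.n e + (v (G.d e) : ℤ) * G.a e * t := by push_cast; ring
    have ht0 : (0 : ℤ) ≤ t := by positivity
    have c3 : ((v (G.s e) : ℤ) * G.a' e + 1) * t ≤ (v (G.d e) : ℤ) * G.a e * t :=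
      mul_le_mul_of_nonneg_right h1' ht0
    have c4 : (v (G.s e) : ℤ) * G.a' e * t ≤ (R : ℤ) ^ 3 * t := mul_le_mul_of_nonneg_right hva ht0
    have c5 : (0 : ℤ) ≤ (v (G.d e) : ℤ) * G.n e := by positivity
    have p1 : (R : ℤ) ^ 9 ≤ R ^ 12 := pow_le_pow_right₀ hR1 (by norm_num)
    have p2 : (R : ℤ) ^ 8 ≤ R ^ 12 := pow_le_pow_right₀ hR1 (by norm_num)
    have p3 : (R : ℤ) ^ 5 ≤ R ^ 12 := pow_le_pow_right₀ hR1 (by norm_num)
    have p4 : (R : ℤ) ^ 14 = R ^ 12 * R ^ 2 := by ring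
    have p5 : (4 : ℤ) ≤ R ^ 2 := by nlinarith
    have p6 : (0 : ℤ) < R ^ 12 := by positivity
    have p7 : 4 * (R : ℤ) ^ 12 ≤ R ^ 14 := by rw [p4]; nlinarith
    have ht1 : (R : ℤ) ^ 9 + R ^ 5 ≤ t := by
      by_contra hc
      push Not at hc
      have d1 : (R : ℤ) ^ 3 * t ≤ (R : ℤ) ^ 3 * (R ^ 9 + R ^ 5) :=
        mul_le_mul_of_nonneg_left hc.le (by positivity)
      have d2 : (R : ℤ) ^ 3 * (R ^ 9 + R ^ 5) = R ^ 12 + R ^ 8 := by ring
      rw [c1] at h
      linarith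
    rw [c1] at h
    rw [c2]
    linarith

theorem small_tau (hG : G.Ok) (hτ : G.IsTau τ) (hR : G.Bnd R) (hv : G.IsPot R v)
    {θ : T × ZMod G.Y → ℤ} (h0 : ∀ x, 0 ≤ θ x ∧ θ x ≤ (R : ℤ) ^ 9)
    (hθ : ∀ q : G.VE v, θ (G.vs v q) - G.vD v q ≤ θ (G.vd v q)) (z : ℕ) (hz : R ^ 14 ≤ z)
    (j : T) (n : ℕ) (hn : 1 ≤ n) (h : G.yy v θ j n ≤ z) : τ j n ≤ R ^ 2 * z := by
  classical
  set S : Finset (T × ℕ) := (Finset.univ ×ˢ Finset.Icc 1 z).filter
    (fun x => G.yy v θ x.1 x.2 ≤ z) with hS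
  have hcard : S.card ≤ R * z := by
    calc S.card ≤ (Finset.univ ×ˢ Finset.Icc 1 z : Finset (T × ℕ)).card :=
          Finset.card_filter_le _ _
      _ = Fintype.card T * z := by rw [Finset.card_product, Nat.card_Icc]; simp
      _ ≤ R * z := Nat.mul_le_mul_right z hR.cardT
  have key : ∀ k : ℕ, ∀ (j : T) (n : ℕ), 1 ≤ n → G.yy v θ j n ≤ z → τ j n = k →
      τ j n ≤ R * (S.filter (fun x => τ x.1 x.2 < τ j n)).card := by
    intro k
    induction k using Nat.strong_induction_on with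
    | _ k ih =>
      intro j n hn hy hk
      rcases hτ.att j n hn with h1 | ⟨e, t, hd, hne, h1⟩
      · rw [h1]; exact Nat.zero_le _
      · set i := G.s e with hi
        set m' := G.m e + G.a' e * t with hm'
        have hyi : G.yy v θ i m' ≤ z := by
          by_contra hc
          push Not at hc
          have := yy_step hG hR hv h0 hθ z hz e t hc
          rw [hd, ← hne] at this
          linarith
        have hm1 : 1 ≤ m' := by have := hG.m_pos e; omega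
        have hp := hG.p_pos i
        have hlt : τ i m' < τ j n := by omega
        have hmz : m' ≤ z := by
          have h2 := (h0 (i, ((v i * m' : ℕ) : ZMod G.Y))).1
          unfold NGraph.yy at hyi
          have h3 : ((v i * m' : ℕ) : ℤ) ≤ z := by linarith
          have h4 : v i * m' ≤ z := by exact_mod_cast h3
          exact (Nat.le_mul_of_pos_left m' (hv.pos i)).trans h4
        have hmem : (i, m') ∈ S := by
          rw [hS, Finset.mem_filter, Finset.mem_product, Finset.mem_Icc]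
          exact ⟨⟨Finset.mem_univ _, hm1, hmz⟩, hyi⟩
        have h5 := ih (τ i m') (by omega) i m' hm1 hyi rfl
        have h6 : (insert (i, m') (S.filter (fun x => τ x.1 x.2 < τ i m'))) ⊆
            S.filter (fun x => τ x.1 x.2 < τ j n) := by
          intro x hx
          rw [Finset.mem_insert] at hx
          rcases hx with rfl | hx
          · exact Finset.mem_filter.mpr ⟨hmem, hlt⟩
          · obtain ⟨hx1, hx2⟩ := Finset.mem_filter.mp hx
            exact Finset.mem_filter.mpr ⟨hx1, by omega⟩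
        have h7 := Finset.card_le_card h6
        rw [Finset.card_insert_of_notMem (by simp)] at h7
        have h8 := hR.p_le i
        calc τ j n = τ i m' + G.p i := h1
          _ ≤ R * (S.filter (fun x => τ x.1 x.2 < τ i m')).card + R := by omega
          _ = R * ((S.filter (fun x => τ x.1 x.2 < τ i m')).card + 1) := by ring
          _ ≤ _ := Nat.mul_le_mul_left R h7
  have h1 := key _ j n hn h rfl
  calc τ j n ≤ R * (S.filter (fun x => τ x.1 x.2 < τ j n)).card := h1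
    _ ≤ R * S.card := Nat.mul_le_mul_left R (Finset.card_filter_le _ _)
    _ ≤ R * (R * z) := Nat.mul_le_mul_left R hcard
    _ = R ^ 2 * z := by ring

end Pool.Agent.LinSched
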